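import Pool.Agent.Y51.FP.Core

/-!
The crossed homomorphism on the automorphism group of a relatively free group, and the wild
automorphisms.
-/

set_option autoImplicit false
set_option linter.unusedSectionVars false
set_option linter.unusedVariables false

namespace Pool.Agent.Y51.FP

open Matrix Filter
open scoped commutatorElement
open Pool.Agent.TH79.FS hiding Good Good.comp fox_ut0 fox_ut1 fox_es jac_ut Cong jac_congr jac_left_inv dl_congr PGood good_twist EE EE_eq EE_one EE_mul not_fg SG lft mk_lft cong_of_mk cong_lft_inv cong_lft_mul cong_comp_inv map_lft_inv map_lft_inv' exists_aut wild_mod wild_wild exists_wild_aut mk_comm coeff_wild not_fg_of_trace Fr.hact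

section Lift

variable {X : Type}

/-- A lift of an automorphism to an endomorphism of the free group. -/
noncomputable def lft {V : Subgroup (FreeGroup X)} [V.Normal] (φ : MulAut (FreeGroup X ⧸ V)) :
    FreeGroup X →* FreeGroup X :=
  FreeGroup.lift (fun x => Quotient.out (φ (QuotientGroup.mk (FreeGroup.of x))))

variable {V : Subgroup (FreeGroup X)} [V.Normal]

theorem mk_lft (φ : MulAut (FreeGroup X ⧸ V)) (w : FreeGroup X) :
    (QuotientGroup.mk (lft φ w) : FreeGroup X ⧸ V) = φ (QuotientGroup.mk w) := by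
  have h : (QuotientGroup.mk' V).comp (lft φ) =
      (φ : FreeGroup X ⧸ V ≃* FreeGroup X ⧸ V).toMonoidHom.comp (QuotientGroup.mk' _) := by
    apply FreeGroup.ext_hom
    intro x
    simp only [MonoidHom.comp_apply, lft, FreeGroup.lift_apply_of]
    exact Quotient.out_eq _
  exact DFunLike.congr_fun h w

theorem cong_of_mk {α α' : FreeGroup X →* FreeGroup X}
    (h : ∀ w, (QuotientGroup.mk (α w) : FreeGroup X ⧸ V) = QuotientGroup.mk (α' w)) :
    CongM V α α' :=
  fun x => QuotientGroup.eq.mp (h (FreeGroup.of x))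

theorem cong_lft_inv (φ : MulAut (FreeGroup X ⧸ V)) :
    CongM V (MonoidHom.id _) ((lft φ).comp (lft φ⁻¹)) := by
  apply cong_of_mk
  intro w
  rw [MonoidHom.comp_apply, mk_lft, mk_lft]
  simp

theorem cong_lft_mul (φ ψ : MulAut (FreeGroup X ⧸ V)) :
    CongM V ((lft φ).comp (lft ψ)) (lft (φ * ψ)) := by
  apply cong_of_mk
  intro w
  rw [MonoidHom.comp_apply, mk_lft, mk_lft, mk_lft]
  rfl

theorem cong_comp_inv (φ ψ : MulAut (FreeGroup X ⧸ V)) :
    CongM V (MonoidHom.id _) (((lft φ).comp (lft ψ)).comp (lft (φ * ψ)⁻¹)) := by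
  apply cong_of_mk
  intro w
  simp only [MonoidHom.comp_apply, mk_lft]
  simp

theorem map_lft_inv (hV : V ≤ commutator (FreeGroup X)) (φ : MulAut (FreeGroup X ⧸ V))
    (e : Abelianization (FreeGroup X)) :
    Abelianization.map (lft φ) (Abelianization.map (lft φ⁻¹) e) = e := by
  obtain ⟨w, rfl⟩ := QuotientGroup.mk_surjective e
  have h1 : (QuotientGroup.mk (lft φ (lft φ⁻¹ w)) : FreeGroup X ⧸ V) = QuotientGroup.mk w := by
    rw [mk_lft, mk_lft]; exact φ.apply_symm_apply _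
  have h2 := QuotientGroup.eq.mp h1
  have h3 : Abelianization.of ((lft φ (lft φ⁻¹ w))⁻¹ * w) = 1 :=
    (QuotientGroup.eq_one_iff _).mpr (hV h2)
  rw [map_mul, map_inv, inv_mul_eq_one] at h3
  exact h3

theorem map_lft_inv' (hV : V ≤ commutator (FreeGroup X)) (φ : MulAut (FreeGroup X ⧸ V))
    (e : Abelianization (FreeGroup X)) :
    Abelianization.map (lft φ⁻¹) (Abelianization.map (lft φ) e) = e := by
  have := map_lft_inv hV φ⁻¹ e
  rwa [inv_inv] at this

end Lift

section PG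

variable {k : Type} [CommRing k] {P : Type} [Group P] {ι X : Type} [Fintype ι] [DecidableEq ι]

/-- The conditions on a representation of a group, as in `Good`. -/
structure PGood (c : ℕ) (cs : List ℕ) (lev : ι → ℕ) (R0 : P →* Matrix ι ι (DualNumber k)) :
    Prop where
  pA : ∀ g, UT lev lev 0 (fs (R0 g))
  pB : ∀ g ∈ GG (⊤ : Subgroup P) cs, UT lev lev 1 (fs (R0 g) - 1)
  pC : ∀ g ∈ GG (⊤ : Subgroup P) (c :: cs), fs (R0 g) = 1 ∧ UT lev lev 0 (sn (R0 g))
  pc : 1 ≤ c
  pne : cs ≠ []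
  ppos : ∀ d ∈ cs, 1 ≤ d

theorem ab_of_GG {cs : List ℕ} (hne : cs ≠ []) (hpos : ∀ c ∈ cs, 1 ≤ c) {w : FreeGroup X}
    (hw : w ∈ GG (⊤ : Subgroup (FreeGroup X)) cs) : Abelianization.of w = 1 :=
  (QuotientGroup.eq_one_iff w).mpr (GG_le_commutator hne hpos hw)

theorem ab_of_GG' {c : ℕ} {cs : List ℕ} (hne : cs ≠ []) (hpos : ∀ c ∈ cs, 1 ≤ c)
    {w : FreeGroup X} (hw : w ∈ GG (⊤ : Subgroup (FreeGroup X)) (c :: cs)) :
    Abelianization.of w = 1 :=
  ab_of_GG hne hpos (gam_le _ c hw)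

theorem good_twist {c : ℕ} {cs : List ℕ} {lev : ι → ℕ} {R0 : P →* Matrix ι ι (DualNumber k)}
    (h : PGood c cs lev R0) (θ : FreeGroup X →* P) : Good c cs lev (twist R0 θ) where
  hA w := by
    rw [fs_twist]
    exact smul_ut _ ((h.pA _).map _)
  hB w hw := by
    rw [fs_twist, ab_of_GG h.pne h.ppos hw, map_one, one_smul]
    have h1 := (h.pB _ (mem_GG_of_hom θ hw)).map
      (MonoidAlgebra.singleOneRingHom (R := k) (M := Abelianization (FreeGroup X)))
    rwa [Matrix.map_sub _ (map_sub _), Matrix.map_one _ (map_zero _) (map_one _)] at h1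
  hC w hw := by
    rw [fs_twist, sn_twist, ab_of_GG' h.pne h.ppos hw, map_one, one_smul, one_smul]
    obtain ⟨h1, h2⟩ := h.pC _ (mem_GG_of_hom θ hw)
    exact ⟨by rw [h1, Matrix.map_one _ (map_zero _) (map_one _)], h2.map _⟩
  hc := h.pc

end PG

section Crossed

variable {X ι k P : Type} [Fintype X] [DecidableEq X] [Fintype ι] [DecidableEq ι] [CommRing k]
  [Group P]

variable {V : Subgroup (FreeGroup X)} [V.Normal]

/-- The crossed homomorphism. -/
noncomputable def EE (R0 : P →* Matrix ι ι (DualNumber k)) (θ : FreeGroup X →* P)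
    (φ : MulAut (FreeGroup X ⧸ V)) : LL k X := dl (jac (twist R0 θ) (lft φ))

variable {c : ℕ} {cs : List ℕ}

theorem EE_eq (hV : V ≤ gam (GG (⊤ : Subgroup (FreeGroup X)) (c :: cs)) 1) {lev : ι → ℕ}
    {R0 : P →* Matrix ι ι (DualNumber k)}
    (h : PGood c cs lev R0) (θ : FreeGroup X →* P) (φ : MulAut (FreeGroup X ⧸ V))
    (α : FreeGroup X →* FreeGroup X)
    (hα : ∀ w, (QuotientGroup.mk (α w) : FreeGroup X ⧸ V) = φ (QuotientGroup.mk w)) :
    dl (jac (twist R0 θ) α) = EE R0 θ φ := by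
  refine dl_congr (good_twist h θ) ((cong_lft_inv φ).mono hV)
    ((cong_of_mk (V := V) fun w => ?_).mono hV)
  rw [mk_lft, hα]

theorem EE_one (hV : V ≤ gam (GG (⊤ : Subgroup (FreeGroup X)) (c :: cs)) 1) {lev : ι → ℕ}
    {R0 : P →* Matrix ι ι (DualNumber k)}
    (h : PGood c cs lev R0) (θ : FreeGroup X →* P) :
    EE R0 θ (1 : MulAut (FreeGroup X ⧸ V)) = 0 := by
  rw [← EE_eq hV h θ 1 (MonoidHom.id _) (fun w => rfl), jac_id, dl, sn_one, Matrix.mul_zero,
    Matrix.trace_zero]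

theorem EE_mul (hV : V ≤ gam (GG (⊤ : Subgroup (FreeGroup X)) (c :: cs)) 1) {lev : ι → ℕ}
    {R0 : P →* Matrix ι ι (DualNumber k)}
    (h : PGood c cs lev R0) (θ : FreeGroup X →* P) (φ ψ : MulAut (FreeGroup X ⧸ V)) :
    EE R0 θ (φ * ψ) = hact k (lft φ) (EE R0 (θ.comp (lft φ)) ψ) + EE R0 θ φ := by
  have h1 : EE R0 θ (φ * ψ) = dl (jac (twist R0 θ) ((lft φ).comp (lft ψ))) :=
    dl_congr (good_twist h θ) ((cong_comp_inv φ ψ).mono hV) ((cong_lft_mul φ ψ).mono hV)
  rw [h1, jac_comp, twist_comp, jac_mapRep]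
  have h2 := jac_left_inv (good_twist h (θ.comp (lft φ))) ((cong_lft_inv ψ).mono hV)
  have h3 := jac_left_inv (good_twist h θ) ((cong_lft_inv φ).mono hV)
  rw [dl_mul _ (isUnit_of_left_inv h3), dl_map _ h2]
  · rfl
  · rw [fs_dmap]
    apply isUnit_of_left_inv (H := (fs (jac ((twist R0 (θ.comp (lft φ))).comp (lft ψ))
      (lft ψ⁻¹))).map (hact k (lft φ)))
    rw [← Matrix.map_mul, h2, Matrix.map_one _ (map_zero _) (map_one _)]

theorem Fr_hact (hV : V ≤ commutator (FreeGroup X)) {m : ℕ} {f : LL k X} (hf : Fr m f)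
    (φ : MulAut (FreeGroup X ⧸ V)) : Fr m (hact k (lft φ) f) := by
  intro e h1 h2
  have hinj : Function.Injective (Abelianization.map (lft φ)) := by
    intro a b hab
    rw [← map_lft_inv' hV φ a, hab, map_lft_inv' hV φ b]
  have h3 : (Pool.Agent.TH79.FS.hact k (lft φ) f).coeff e =
      f.coeff (Abelianization.map (lft φ⁻¹) e) := by
    have := Finsupp.mapDomain_apply hinj f.coeff (Abelianization.map (lft φ⁻¹) e)
    rw [map_lft_inv hV] at this
    exact this
  rw [h3]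
  apply hf
  · intro h4
    apply h1
    rw [← map_lft_inv hV φ e, h4, map_one]
  · obtain ⟨g, rfl⟩ := h2
    exact ⟨Abelianization.map (lft φ⁻¹) g, by rw [map_pow]⟩

theorem V_le_comm (hV : V ≤ gam (GG (⊤ : Subgroup (FreeGroup X)) (c :: cs)) 1)
    (hne : cs ≠ []) (hpos : ∀ d ∈ cs, 1 ≤ d) : V ≤ commutator (FreeGroup X) :=
  hV.trans ((gam_le _ 1).trans ((gam_le _ c).trans (GG_le_commutator hne hpos)))

/-- The criterion: a finitely generated group of automorphisms does not contain a family with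
unbounded values of the crossed homomorphism. -/
theorem not_mem_fg [Finite P] (hV : V ≤ gam (GG (⊤ : Subgroup (FreeGroup X)) (c :: cs)) 1)
    {lev : ι → ℕ} {R0 : P →* Matrix ι ι (DualNumber k)}
    (h : PGood c cs lev R0) (θ₀ : FreeGroup X →* P) (T : Set (MulAut (FreeGroup X ⧸ V)))
    (hw : ∀ N, ∃ m, N ≤ m ∧ ∃ φ ∈ T, ¬ Fr m (EE R0 θ₀ φ))
    (H : Subgroup (MulAut (FreeGroup X ⧸ V))) (hfg : H.FG) : ∃ φ ∈ T, φ ∉ H := by
  have hfg' : H.toSubmonoid.FG := (Subgroup.fg_iff_submonoid_fg H).mp hfg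
  obtain ⟨s, hs⟩ := hfg'
  have hfin : Finite (FreeGroup X →* P) :=
    Finite.of_equiv (X → P) FreeGroup.lift
  have h1 : ∀ᶠ m : ℕ in atTop, ∀ φ ∈ s, ∀ θ : FreeGroup X →* P, Fr m (EE R0 θ φ) := by
    rw [Filter.eventually_all_finset]
    intro φ _
    rw [Filter.eventually_all]
    intro θ
    exact eventually_Fr _
  obtain ⟨N, hN⟩ := Filter.eventually_atTop.mp h1
  obtain ⟨m, hm, φ, hφT, hφ⟩ := hw N
  have hVc := V_le_comm hV h.pne h.ppos
  let M : Submonoid (MulAut (FreeGroup X ⧸ V)) :=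
    { carrier := {φ | ∀ θ : FreeGroup X →* P, Fr m (EE R0 θ φ)}
      one_mem' := by
        intro θ
        rw [EE_one hV h θ]
        intro _ _ _
        rfl
      mul_mem' := by
        intro φ ψ hφ hψ θ
        rw [EE_mul hV h]
        exact (Fr_hact hVc (hψ _) φ).add (hφ θ) }
  have hM : H.toSubmonoid ≤ M := by
    rw [← hs, Submonoid.closure_le]
    intro φ hφ
    exact hN m hm φ hφ
  exact ⟨φ, hφT, fun hφH => hφ (hM hφH θ₀)⟩

end Crossed

section Ind

variable {X : Type}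

/-- Endomorphisms inverse to each other modulo the commutator subgroup of `W` give automorphisms
modulo every fully invariant `V` between `gam W c` and `gam W 1`. -/
theorem exists_aut {V W : Subgroup (FreeGroup X)} [V.Normal] [W.Normal]
    (hfi : ∀ f : FreeGroup X →* FreeGroup X, V ≤ V.comap f)
    {c : ℕ} (hc : gam W c ≤ V) (hV : V ≤ gam W 1)
    (α α' : FreeGroup X →* FreeGroup X)
    (h1 : ∀ w, w⁻¹ * α (α' w) ∈ gam W 1) (h2 : ∀ w, w⁻¹ * α' (α w) ∈ gam W 1) :
    ∃ φ : MulAut (FreeGroup X ⧸ V), ∀ w,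
      (QuotientGroup.mk (α w) : FreeGroup X ⧸ V) = φ (QuotientGroup.mk w) := by
  let f : FreeGroup X ⧸ V →* FreeGroup X ⧸ V := QuotientGroup.map _ _ α (hfi α)
  let g : FreeGroup X ⧸ V →* FreeGroup X ⧸ V := QuotientGroup.map _ _ α' (hfi α')
  let A : Subgroup (FreeGroup X ⧸ V) := W.map (QuotientGroup.mk' V)
  have hAn : A.Normal := Subgroup.Normal.map inferInstance _ (QuotientGroup.mk'_surjective V)
  have hA : gam A c = ⊥ := by
    rw [← map_gam, Subgroup.map_eq_bot_iff, QuotientGroup.ker_mk']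
    exact hc
  have hgam : ∀ w, w ∈ gam W 1 → (QuotientGroup.mk' V w) ∈ gam A 1 := by
    intro w hw
    rw [← map_gam]
    exact Subgroup.mem_map_of_mem _ hw
  have hfg : Function.Bijective (f.comp g) := by
    apply endo_bij A _ _ hA
    intro x
    obtain ⟨w, rfl⟩ := QuotientGroup.mk'_surjective V x
    exact hgam _ (h1 w)
  have hgf : Function.Bijective (g.comp f) := by
    apply endo_bij A _ _ hA
    intro x
    obtain ⟨w, rfl⟩ := QuotientGroup.mk'_surjective V x
    exact hgam _ (h2 w)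
  have hf : Function.Bijective f := by
    constructor
    · intro a b hab
      apply hgf.1
      show g (f a) = g (f b)
      rw [hab]
    · intro a
      obtain ⟨b, hb⟩ := hfg.2 a
      exact ⟨g b, hb⟩
  exact ⟨MulEquiv.ofBijective f hf, fun w => rfl⟩

theorem mk_comm {W : Subgroup (FreeGroup X)} [W.Normal] {a b : FreeGroup X} (ha : a ∈ W)
    (hb : b ∈ W) : b⁻¹ * (a * b * a⁻¹) ∈ gam W 1 := by
  have : ⁅b⁻¹, a⁆ ∈ gam W 1 := by
    rw [gam_one]
    exact Subgroup.commutator_mem_commutator (inv_mem hb) ha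
  have e : b⁻¹ * (a * b * a⁻¹) = ⁅b⁻¹, a⁆ := by
    rw [commutatorElement_def]; group
  rw [e]
  exact this

variable [DecidableEq X]

theorem wild_mod {W : Subgroup (FreeGroup X)} [W.Normal] (x₀ : X) {u : FreeGroup X}
    (hu : u ∈ W) (w : FreeGroup X) : w⁻¹ * wild x₀ u w ∈ W := by
  have h : (QuotientGroup.mk' W).comp (wild x₀ u) = QuotientGroup.mk' W := by
    apply FreeGroup.ext_hom
    intro x
    show (QuotientGroup.mk (wild x₀ u (FreeGroup.of x)) : FreeGroup X ⧸ W) = QuotientGroup.mk _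
    by_cases hx : x = x₀
    · subst hx
      rw [wild_x₀]
      symm
      rw [QuotientGroup.eq]
      simpa using hu
    · rw [wild_ne hx]
  have h2 := DFunLike.congr_fun h w
  exact QuotientGroup.eq.mp h2.symm

theorem wild_wild {W : Subgroup (FreeGroup X)} [W.Normal] (x₀ : X) {y : FreeGroup X}
    (hy : y ∈ W) (hy0 : y ∈ away x₀) (s : FreeGroup X) (w : FreeGroup X) :
    w⁻¹ * wild x₀ (s * y * s⁻¹) (wild x₀ (s * y⁻¹ * s⁻¹) w) ∈ gam W 1 := by
  have hN : (gam W 1).Normal := inferInstance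
  have h : (QuotientGroup.mk' (gam W 1)).comp
      ((wild x₀ (s * y * s⁻¹)).comp (wild x₀ (s * y⁻¹ * s⁻¹))) =
      QuotientGroup.mk' (gam W 1) := by
    apply FreeGroup.ext_hom
    intro x
    show (QuotientGroup.mk (wild x₀ (s * y * s⁻¹) (wild x₀ (s * y⁻¹ * s⁻¹) (FreeGroup.of x))) :
      FreeGroup X ⧸ gam W 1) = QuotientGroup.mk (FreeGroup.of x)
    by_cases hx : x = x₀
    · subst hx
      have hu : s * y * s⁻¹ ∈ W := Subgroup.Normal.conj_mem inferInstance y hy s
      set α := wild x (s * y * s⁻¹) with hα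
      have h1 : α y⁻¹ = y⁻¹ := wild_away _ (inv_mem hy0)
      obtain ⟨c, hc, hsc⟩ : ∃ c ∈ W, α s = s * c :=
        ⟨s⁻¹ * α s, wild_mod x hu s, by rw [mul_inv_cancel_left]⟩
      rw [wild_x₀, map_mul, map_mul, map_mul, map_inv α s, h1, hsc, hα, wild_x₀]
      have h2 : (QuotientGroup.mk (c * y⁻¹ * c⁻¹) : FreeGroup X ⧸ gam W 1) =
          QuotientGroup.mk y⁻¹ := by
        symm
        rw [QuotientGroup.eq]
        exact mk_comm hc (inv_mem hy)
      have e : FreeGroup.of x * (s * y * s⁻¹) * (s * c * y⁻¹ * (s * c)⁻¹) =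
          FreeGroup.of x * (s * y * s⁻¹) * (s * (c * y⁻¹ * c⁻¹) * s⁻¹) := by group
      have e2 : FreeGroup.of x = FreeGroup.of x * (s * y * s⁻¹) * (s * y⁻¹ * s⁻¹) := by group
      rw [e]
      conv_rhs => rw [e2]
      rw [QuotientGroup.mk_mul, QuotientGroup.mk_mul _ (s * (c * y⁻¹ * c⁻¹)),
        QuotientGroup.mk_mul _ s (c * y⁻¹ * c⁻¹), h2]
      rfl
    · rw [wild_ne hx, wild_ne hx]
  have h2 := DFunLike.congr_fun h w
  exact QuotientGroup.eq.mp h2.symm

theorem exists_wild_aut {V W : Subgroup (FreeGroup X)} [V.Normal] [W.Normal]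
    (hfi : ∀ f : FreeGroup X →* FreeGroup X, V ≤ V.comap f)
    {c : ℕ} (hc : gam W c ≤ V) (hV : V ≤ gam W 1) (x₀ : X) {y : FreeGroup X}
    (hy : y ∈ W) (hy0 : y ∈ away x₀) (s : FreeGroup X) :
    ∃ φ : MulAut (FreeGroup X ⧸ V), ∀ w,
      (QuotientGroup.mk (wild x₀ (s * y * s⁻¹) w) : FreeGroup X ⧸ V) =
        φ (QuotientGroup.mk w) := by
  apply exists_aut hfi hc hV _ (wild x₀ (s * y⁻¹ * s⁻¹))
  · exact wild_wild x₀ hy hy0 s
  · have := wild_wild x₀ (inv_mem hy) (inv_mem hy0) s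
    rwa [inv_inv] at this

end Ind

section Detect

variable {X ι k P : Type} [Fintype X] [DecidableEq X] [Fintype ι] [DecidableEq ι] [CommRing k]
  [Group P] {V : Subgroup (FreeGroup X)} [V.Normal] {c : ℕ} {cs : List ℕ}

theorem coeff_wild (hV : V ≤ gam (GG (⊤ : Subgroup (FreeGroup X)) (c :: cs)) 1)
    {lev : ι → ℕ} {R0 : P →* Matrix ι ι (DualNumber k)}
    (h : PGood c cs lev R0) (θ : FreeGroup X →* P) (x₀ : X) {y : FreeGroup X}
    (hy : y ∈ GG (⊤ : Subgroup (FreeGroup X)) (c :: cs)) (hy0 : y ∈ away x₀) (m : ℕ)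
    (hm : 1 ≤ m) (φ : MulAut (FreeGroup X ⧸ V))
    (hφ : ∀ w, (QuotientGroup.mk (wild x₀ (FreeGroup.of x₀ ^ m * y * (FreeGroup.of x₀ ^ m)⁻¹) w) :
      FreeGroup X ⧸ V) = φ (QuotientGroup.mk w)) :
    (EE R0 θ φ).coeff (Abelianization.of (FreeGroup.of x₀) ^ m) =
      -(sn (R0 (θ y)) * fs (R0 (θ (FreeGroup.of x₀))) ^ m).trace := by
  classical
  rw [← EE_eq hV h θ φ _ hφ, dl_wild_pow _ x₀ hy0 ((good_twist h θ).hC y hy).1 m]
  have hterm : ∀ j, (sn (twist R0 θ y) * fs (twist R0 θ (FreeGroup.of x₀)) ^ (j + 1)).trace =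
      MonoidAlgebra.single (Abelianization.of (FreeGroup.of x₀) ^ (j + 1))
        (sn (R0 (θ y)) * fs (R0 (θ (FreeGroup.of x₀))) ^ (j + 1)).trace := by
    intro j
    rw [sn_twist, fs_twist, ab_of_GG' h.pne h.ppos hy, map_one, one_smul, smul_pow,
      Matrix.mul_smul, Matrix.trace_smul, ← map_pow]
    have h1 : ((fs (R0 (θ (FreeGroup.of x₀)))).map
        (MonoidAlgebra.singleOneRingHom (R := k) (M := Abelianization (FreeGroup X)))) ^ (j + 1) =
        ((fs (R0 (θ (FreeGroup.of x₀)))) ^ (j + 1)).map MonoidAlgebra.singleOneRingHom := by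
      have := map_pow (MonoidAlgebra.singleOneRingHom (R := k)
        (M := Abelianization (FreeGroup X))).mapMatrix (fs (R0 (θ (FreeGroup.of x₀)))) (j + 1)
      exact this.symm
    rw [h1, ← Matrix.map_mul]
    have h2 : ∀ M : Matrix ι ι k, (M.map (MonoidAlgebra.singleOneRingHom (R := k)
        (M := Abelianization (FreeGroup X)))).trace =
        MonoidAlgebra.singleOneRingHom (R := k) (M := Abelianization (FreeGroup X)) M.trace := by
      intro M
      rw [Matrix.trace, Matrix.trace, map_sum]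
      rfl
    rw [h2]
    simp [MonoidAlgebra.singleOneRingHom, MonoidAlgebra.single_mul_single]
  simp only [hterm]
  rw [MonoidAlgebra.coeff_neg, Finsupp.neg_apply]
  congr 1
  have h3 : (∑ j ∈ Finset.range m, (MonoidAlgebra.single
      (Abelianization.of (FreeGroup.of x₀) ^ (j + 1))
        (sn (R0 (θ y)) * fs (R0 (θ (FreeGroup.of x₀))) ^ (j + 1)).trace : LL k X)).coeff
          (Abelianization.of (FreeGroup.of x₀) ^ m) =
      ∑ j ∈ Finset.range m, (MonoidAlgebra.single (Abelianization.of (FreeGroup.of x₀) ^ (j + 1))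
        (sn (R0 (θ y)) * fs (R0 (θ (FreeGroup.of x₀))) ^ (j + 1)).trace : LL k X).coeff
          (Abelianization.of (FreeGroup.of x₀) ^ m) := by
    rw [MonoidAlgebra.coeff_sum, Finsupp.finsetSum_apply]
  rw [h3, Finset.sum_eq_single (m - 1)]
  · rw [Nat.sub_add_cancel hm, MonoidAlgebra.coeff_single, Finsupp.single_eq_same]
  · intro j hj hjm
    rw [MonoidAlgebra.coeff_single, Finsupp.single_apply, if_neg]
    intro h4
    have := of_pow_inj x₀ h4
    omega
  · intro h4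
    exact (h4 (Finset.mem_range.mpr (by omega))).elim

/-- The general criterion. -/
theorem not_mem_fg_of_trace [Finite P]
    (hfi : ∀ f : FreeGroup X →* FreeGroup X, V ≤ V.comap f) {n : ℕ}
    (hn : gam (GG (⊤ : Subgroup (FreeGroup X)) (c :: cs)) n ≤ V)
    (hV : V ≤ gam (GG (⊤ : Subgroup (FreeGroup X)) (c :: cs)) 1)
    {lev : ι → ℕ} {R0 : P →* Matrix ι ι (DualNumber k)}
    (h : PGood c cs lev R0) (θ : FreeGroup X →* P) (x₀ : X) {y : FreeGroup X}
    (hy : y ∈ GG (⊤ : Subgroup (FreeGroup X)) (c :: cs)) (hy0 : y ∈ away x₀)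
    (htr : ∀ N : ℕ, ∃ m, N ≤ m ∧
      (sn (R0 (θ y)) * fs (R0 (θ (FreeGroup.of x₀))) ^ m).trace ≠ 0)
    (H : Subgroup (MulAut (FreeGroup X ⧸ V))) (hH : H.FG) :
    ∃ φ : MulAut (FreeGroup X ⧸ V), φ ∉ H ∧
      ∀ w : FreeGroup X, ∃ u ∈ GG (⊤ : Subgroup (FreeGroup X)) (c :: cs),
        φ (QuotientGroup.mk w) = QuotientGroup.mk (w * u) := by
  obtain ⟨φ, hφT, hφH⟩ := not_mem_fg hV h θ
    {φ : MulAut (FreeGroup X ⧸ V) | ∀ w : FreeGroup X,
      ∃ u ∈ GG (⊤ : Subgroup (FreeGroup X)) (c :: cs),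
        φ (QuotientGroup.mk w) = QuotientGroup.mk (w * u)} (by
    intro N
    obtain ⟨m, hm, ht⟩ := htr (N + 1)
    obtain ⟨φ, hφ⟩ := exists_wild_aut hfi hn hV x₀ hy hy0 (FreeGroup.of x₀ ^ m)
    refine ⟨m, by omega, φ, ?_, fun hFr => ht ?_⟩
    · intro w
      refine ⟨w⁻¹ * wild x₀ (FreeGroup.of x₀ ^ m * y * (FreeGroup.of x₀ ^ m)⁻¹) w,
        wild_mod x₀ (Subgroup.Normal.conj_mem inferInstance y hy _) w, ?_⟩
      rw [← hφ, mul_inv_cancel_left]
    · have h1 := coeff_wild hV h θ x₀ hy hy0 m (by omega) φ hφ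
      rw [hFr _ ?_ ⟨_, rfl⟩] at h1
      · exact neg_eq_zero.mp h1.symm
      · intro h2
        have := of_pow_inj x₀ (i := m) (j := 0) (by rw [pow_zero]; exact h2)
        omega) H hH
  exact ⟨φ, hφH, hφT⟩

end Detect

end Pool.Agent.Y51.FP
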