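import Pool.Agent.Y51.FP.Wreath

/-!
The Iwahori group of `GL (c + 1)` over the dual numbers of a finite field.
-/

set_option autoImplicit false
set_option linter.unusedSectionVars false
set_option linter.unusedVariables false

namespace Pool.Agent.Y51.FP

open Matrix
open scoped commutatorElement
open Pool.Agent.TH79.FS (fs sn fs_apply sn_apply fs_mul sn_mul fs_one sn_one fs_add sn_add fs_sub
  sn_sub fs_neg sn_neg fs_zero sn_zero UT)

section Filt

variable {n : ℕ} {k : Type} [CommRing k]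

/-- Matrices over the dual numbers. -/
abbrev DM (n : ℕ) (k : Type) [CommRing k] : Type := Matrix (Fin n) (Fin n) (DualNumber k)

/-- Level of an index. -/
def lv (i : Fin n) : ℕ := i.val
/-- Shifted level of an index. -/
def lw (i : Fin n) : ℕ := i.val + n

/-- The filtration: entries of degree less than `d` vanish, where the entry `(i, j)` has degree
`j - i` and its coefficient of epsilon has degree `j - i + n`. -/
def Fl (d : ℕ) (M : DM n k) : Prop := UT lv lv d (fs M) ∧ UT lv lw d (sn M)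

theorem Fl.mul {a b : ℕ} {M N : DM n k} (hM : Fl a M) (hN : Fl b N) : Fl (a + b) (M * N) := by
  constructor
  · rw [fs_mul]; exact hM.1.mul hN.1
  · rw [sn_mul]
    refine (hM.1.mul hN.2).add ?_
    have h : UT (lw (n := n)) lw b (fs N) := fun i j hij => hN.1 i j (by
      simp only [lw, lv] at hij ⊢; omega)
    exact hM.2.mul h

theorem Fl.add {a : ℕ} {M N : DM n k} (hM : Fl a M) (hN : Fl a N) : Fl a (M + N) :=
  ⟨by rw [fs_add]; exact hM.1.add hN.1, by rw [sn_add]; exact hM.2.add hN.2⟩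

theorem Fl.sub {a : ℕ} {M N : DM n k} (hM : Fl a M) (hN : Fl a N) : Fl a (M - N) :=
  ⟨by rw [fs_sub]; exact hM.1.sub hN.1, by rw [sn_sub]; exact hM.2.sub hN.2⟩

theorem Fl.neg {a : ℕ} {M : DM n k} (hM : Fl a M) : Fl a (-M) :=
  ⟨by rw [fs_neg]; exact hM.1.neg, by rw [sn_neg]; exact hM.2.neg⟩

theorem Fl.mono {a b : ℕ} {M : DM n k} (hM : Fl a M) (h : b ≤ a) : Fl b M :=
  ⟨hM.1.mono h, hM.2.mono h⟩

theorem Fl.zero {a : ℕ} : Fl a (0 : DM n k) := ⟨UT.zero, UT.zero⟩

theorem Fl.one : Fl 0 (1 : DM n k) :=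
  ⟨by rw [fs_one]; exact UT.one, by rw [sn_one]; exact UT.zero⟩

theorem Fl.eq_zero {M : DM n k} (hM : Fl (n + n) M) : M = 0 := by
  ext i j
  · have := hM.1 i j (by simp only [lv]; omega)
    exact this
  · have := hM.2 i j (by simp only [lv, lw]; omega)
    exact this

theorem Fl.pow {M : DM n k} (hM : Fl 1 M) (m : ℕ) : Fl m (M ^ m) := by
  induction m with
  | zero => rw [pow_zero]; exact Fl.one
  | succ m ih => rw [pow_succ]; exact ih.mul hM

theorem Fl.sum {α : Type} (s : Finset α) (f : α → DM n k) {a : ℕ} (h : ∀ x ∈ s, Fl a (f x)) :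
    Fl a (∑ x ∈ s, f x) := by
  classical
  induction s using Finset.induction_on with
  | empty => rw [Finset.sum_empty]; exact Fl.zero
  | insert x s hx ih =>
    rw [Finset.sum_insert hx]
    exact (h x (Finset.mem_insert_self _ _)).add
      (ih fun y hy => h y (Finset.mem_insert_of_mem hy))

variable (n k)

/-- The Iwahori group. -/
def PI : Subgroup (DM n k)ˣ where
  carrier := {u | Fl 0 (u : DM n k) ∧ Fl 0 ((u⁻¹ : (DM n k)ˣ) : DM n k)}
  one_mem' := ⟨Fl.one, by rw [inv_one]; exact Fl.one⟩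
  mul_mem' := by
    rintro a b ⟨ha, ha'⟩ ⟨hb, hb'⟩
    refine ⟨?_, ?_⟩
    · rw [Units.val_mul]; exact ha.mul hb
    · rw [_root_.mul_inv_rev, Units.val_mul]; exact hb'.mul ha'
  inv_mem' := by
    rintro a ⟨ha, ha'⟩
    exact ⟨ha', by rw [inv_inv]; exact ha⟩

/-- The tautological representation. -/
def RI : PI n k →* DM n k := (Units.coeHom _).comp (PI n k).subtype

variable {n k}

theorem RI_fl (g : PI n k) : Fl 0 (RI n k g) := g.2.1

theorem RI_inv_mul (g : PI n k) : RI n k g⁻¹ * RI n k g = 1 := by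
  rw [← map_mul, inv_mul_cancel, map_one]

theorem RI_mul_inv (g : PI n k) : RI n k g * RI n k g⁻¹ = 1 := by
  rw [← map_mul, mul_inv_cancel, map_one]

/-- The congruence subgroups. -/
def QI (n : ℕ) (k : Type) [CommRing k] (d : ℕ) : Subgroup (PI n k) where
  carrier := {g | Fl d (RI n k g - 1)}
  one_mem' := by
    show Fl d (RI n k 1 - 1)
    rw [map_one, sub_self]; exact Fl.zero
  mul_mem' := by
    intro g h hg hh
    show Fl d (RI n k (g * h) - 1)
    have e : RI n k (g * h) - 1 = (RI n k g - 1) * RI n k h + (RI n k h - 1) := by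
      rw [map_mul]; noncomm_ring
    rw [e]
    exact (Fl.mul hg (RI_fl h)).add hh
  inv_mem' := by
    intro g hg
    show Fl d (RI n k g⁻¹ - 1)
    have e : RI n k g⁻¹ - 1 = -(RI n k g⁻¹ * (RI n k g - 1)) := by
      rw [mul_sub, RI_inv_mul]; noncomm_ring
    rw [e]
    have := (RI_fl g⁻¹).mul (show Fl d (RI n k g - 1) from hg)
    rw [zero_add] at this
    exact this.neg

theorem RI_comm (g h : PI n k) : RI n k ⁅g, h⁆ - 1 =
    ((RI n k g - 1) * (RI n k h - 1) - (RI n k h - 1) * (RI n k g - 1)) *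
      RI n k (g⁻¹ * h⁻¹) := by
  have e1 : RI n k ⁅g, h⁆ = RI n k g * RI n k h * RI n k (g⁻¹ * h⁻¹) := by
    rw [← map_mul, ← map_mul, commutatorElement_def]
    congr 1
    group
  have e2 : RI n k h * RI n k g * RI n k (g⁻¹ * h⁻¹) = 1 := by
    rw [← map_mul, ← map_mul]
    have : h * g * (g⁻¹ * h⁻¹) = 1 := by group
    rw [this, map_one]
  have e3 : (RI n k g - 1) * (RI n k h - 1) - (RI n k h - 1) * (RI n k g - 1) =
      RI n k g * RI n k h - RI n k h * RI n k g := by noncomm_ring
  rw [e3, sub_mul, e2, ← e1]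

theorem comm_QI (a b : ℕ) : ⁅QI n k a, QI n k b⁆ ≤ QI n k (a + b) := by
  rw [Subgroup.commutator_le]
  intro g hg h hh
  show Fl (a + b) (RI n k ⁅g, h⁆ - 1)
  rw [RI_comm]
  have h1 := (show Fl a (RI n k g - 1) from hg).mul (show Fl b (RI n k h - 1) from hh)
  have h2 := (show Fl b (RI n k h - 1) from hh).mul (show Fl a (RI n k g - 1) from hg)
  rw [add_comm b a] at h2
  exact (h1.sub h2).mul (RI_fl (g⁻¹ * h⁻¹))

theorem ut_diag {R : Type} [CommRing R] {A B : Matrix (Fin n) (Fin n) R} (hA : UT lv lv 0 A)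
    (hB : UT lv lv 0 B) (i : Fin n) : (A * B) i i = A i i * B i i := by
  rw [Matrix.mul_apply, Finset.sum_eq_single i]
  · intro l _ hl
    rcases lt_or_gt_of_ne hl with h | h
    · rw [hA i l (by simp only [lv]; omega), zero_mul]
    · rw [hB l i (by simp only [lv]; omega), mul_zero]
  · intro h; exact (h (Finset.mem_univ _)).elim

theorem comm_top : ⁅(⊤ : Subgroup (PI n k)), ⊤⁆ ≤ QI n k 1 := by
  rw [Subgroup.commutator_le]
  intro g _ h _
  show Fl 1 (RI n k ⁅g, h⁆ - 1)
  rw [RI_comm]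
  have e3 : (RI n k g - 1) * (RI n k h - 1) - (RI n k h - 1) * (RI n k g - 1) =
      RI n k g * RI n k h - RI n k h * RI n k g := by noncomm_ring
  rw [e3]
  have hG := RI_fl g
  have hH := RI_fl h
  have h1 : Fl 1 (RI n k g * RI n k h - RI n k h * RI n k g) := by
    constructor
    · intro i j hij
      simp only [lv] at hij
      rw [fs_sub, Matrix.sub_apply, fs_mul, fs_mul]
      by_cases h2 : j = i
      · subst h2
        rw [ut_diag hG.1 hH.1, ut_diag hH.1 hG.1, mul_comm, sub_self]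
      · have h3 : j.val < i.val := by
          have : j.val ≠ i.val := fun h => h2 (Fin.ext h)
          omega
        rw [(hG.1.mul hH.1) i j (by simp only [lv]; omega),
          (hH.1.mul hG.1) i j (by simp only [lv]; omega), sub_self]
    · intro i j hij
      simp only [lv, lw] at hij
      omega
  exact h1.mul (RI_fl (g⁻¹ * h⁻¹))

theorem gam_QI (m : ℕ) : gam (QI n k 1) m ≤ QI n k (m + 1) := by
  induction m with
  | zero => exact le_rfl
  | succ m ih => exact (Subgroup.commutator_mono ih le_rfl).trans (comm_QI (m + 1) 1)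

theorem gam_top_QI {d : ℕ} (hd : 1 ≤ d) : gam (⊤ : Subgroup (PI n k)) d ≤ QI n k 1 :=
  (gam_anti _ hd).trans comm_top

theorem pgood_RI {c d : ℕ} (hc : 1 ≤ c) (hd : 1 ≤ d) :
    PGood c [d] (lv (n := c + 1)) (RI (c + 1) k) where
  pA g := (RI_fl g).1
  pB g hg := by
    have h1 : Fl 1 (RI (c + 1) k g - 1) := gam_top_QI hd hg
    have h2 := h1.1
    rw [fs_sub, fs_one] at h2
    exact h2
  pC g hg := by
    have h1 : Fl (c + 1) (RI (c + 1) k g - 1) := gam_QI c (gam_mono (gam_top_QI hd) c hg)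
    constructor
    · ext i j
      have h2 := h1.1 i j (by simp only [lv]; omega)
      rw [fs_sub, fs_one, Matrix.sub_apply, sub_eq_zero] at h2
      exact h2
    · intro i j hij
      have h2 := h1.2 i j (by simp only [lv, lw] at hij ⊢; omega)
      rw [sn_sub, sn_one, sub_zero] at h2
      exact h2
  pc := hc
  pne := by simp
  ppos := by
    intro x hx
    rw [List.mem_singleton] at hx
    rw [hx]; exact hd

theorem comm_sym {a b : ℕ} (ha : 1 ≤ a) (hb : 1 ≤ b) {g h : PI n k} {X Y : DM n k}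
    (hX : Fl a X) (hY : Fl b Y) (hg : Fl (a + 1) (RI n k g - 1 - X))
    (hh : Fl (b + 1) (RI n k h - 1 - Y)) :
    Fl (a + b + 1) (RI n k ⁅g, h⁆ - 1 - (X * Y - Y * X)) := by
  have hg' : Fl a (RI n k g - 1) := by
    have := (hg.mono (Nat.le_succ a)).add hX
    rwa [sub_add_cancel] at this
  have hh' : Fl b (RI n k h - 1) := by
    have := (hh.mono (Nat.le_succ b)).add hY
    rwa [sub_add_cancel] at this
  have hK : Fl 1 (RI n k (g⁻¹ * h⁻¹) - 1) := by
    have h1 : g ∈ QI n k 1 := hg'.mono ha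
    have h2 : h ∈ QI n k 1 := hh'.mono hb
    exact mul_mem (inv_mem h1) (inv_mem h2)
  rw [RI_comm]
  set G := RI n k g - 1 with hG
  set H := RI n k h - 1 with hH
  set K := RI n k (g⁻¹ * h⁻¹) with hKdef
  have e : (G * H - H * G) * K - (X * Y - Y * X) =
      (G * H - H * G) * (K - 1) + (((G - X) * H + X * (H - Y)) - ((H - Y) * G + Y * (G - X))) := by
    noncomm_ring
  rw [e]
  have h1 : Fl (a + b) (G * H - H * G) := by
    have := hh'.mul hg'
    rw [add_comm b a] at this
    exact (hg'.mul hh').sub this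
  have h2 : Fl (a + b + 1) ((G * H - H * G) * (K - 1)) := h1.mul hK
  have h3 : Fl (a + b + 1) ((G - X) * H) := by
    have := hg.mul hh'
    rwa [show a + 1 + b = a + b + 1 by ring] at this
  have h4 : Fl (a + b + 1) (X * (H - Y)) := hX.mul hh
  have h5 : Fl (a + b + 1) ((H - Y) * G) := by
    have := hh.mul hg'
    rwa [show b + 1 + a = a + b + 1 by ring] at this
  have h6 : Fl (a + b + 1) (Y * (G - X)) := by
    have := hY.mul hg
    rwa [show b + (a + 1) = a + b + 1 by ring] at this
  exact h2.add ((h3.add h4).sub (h5.add h6))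

end Filt

section Elem

variable {c : ℕ} {k : Type} [Field k]

/-- The weights of the simple root vectors. -/
def wt (x : Fin (c + 1)) : DualNumber k := if x = Fin.last c then TrivSqZeroExt.inr 1 else 1

/-- Combination of the simple root vectors. -/
def es (f : Fin (c + 1) → k) : DM (c + 1) k :=
  Matrix.of fun x y => if y = x + 1 then TrivSqZeroExt.inl (f x) * wt x else 0

theorem es_apply (f : Fin (c + 1) → k) (x y : Fin (c + 1)) :
    es f x y = if y = x + 1 then TrivSqZeroExt.inl (f x) * wt x else 0 := rfl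

theorem es_add (f g : Fin (c + 1) → k) : es (f + g) = es f + es g := by
  ext1 x y
  rw [Matrix.add_apply, es_apply, es_apply, es_apply]
  split_ifs
  · rw [Pi.add_apply, TrivSqZeroExt.inl_add, add_mul]
  · rw [add_zero]

theorem es_zero : es (0 : Fin (c + 1) → k) = 0 := by
  ext1 x y
  rw [es_apply]
  simp

theorem es_neg (f : Fin (c + 1) → k) : es (-f) = -es f := by
  have := es_add f (-f)
  rw [add_neg_cancel, es_zero] at this
  exact (neg_eq_of_add_eq_zero_right this.symm).symm

theorem val_succ {x : Fin (c + 1)} (h : x ≠ Fin.last c) : (x + 1).val = x.val + 1 :=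
  Fin.val_add_one_of_lt (lt_of_le_of_ne (Fin.le_last x) h)

theorem es_fl (f : Fin (c + 1) → k) : Fl 1 (es f) := by
  constructor
  · intro x y h
    simp only [lv] at h
    rw [fs_apply, es_apply]
    split_ifs with h1
    · by_cases h2 : x = Fin.last c
      · rw [wt, if_pos h2]; simp
      · rw [h1, val_succ h2] at h; omega
    · rfl
  · intro x y h
    simp only [lv, lw] at h
    omega

/-- The leading term of an element of the first congruence subgroup. -/
def Sym (g : PI (c + 1) k) (f : Fin (c + 1) → k) : Prop := Fl 2 (RI (c + 1) k g - 1 - es f)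

theorem Sym.mem {g : PI (c + 1) k} {f : Fin (c + 1) → k} (h : Sym g f) :
    Fl 1 (RI (c + 1) k g - 1) := by
  have := (Fl.mono h (show 1 ≤ 2 by norm_num)).add (es_fl f)
  rwa [sub_add_cancel] at this

theorem Sym.one : Sym (1 : PI (c + 1) k) 0 := by
  rw [Sym, map_one, es_zero, sub_self, sub_zero]; exact Fl.zero

theorem Sym.mul {g h : PI (c + 1) k} {f f' : Fin (c + 1) → k} (hg : Sym g f) (hh : Sym h f') :
    Sym (g * h) (f + f') := by
  rw [Sym, map_mul, es_add]
  have e : RI (c + 1) k g * RI (c + 1) k h - 1 - (es f + es f') =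
      (RI (c + 1) k g - 1 - es f) + (RI (c + 1) k h - 1 - es f') +
        (RI (c + 1) k g - 1) * (RI (c + 1) k h - 1) := by noncomm_ring
  rw [e]
  exact (Fl.add hg hh).add (hg.mem.mul hh.mem)

theorem Sym.inv {g : PI (c + 1) k} {f : Fin (c + 1) → k} (hg : Sym g f) : Sym g⁻¹ (-f) := by
  rw [Sym, es_neg]
  have h1 : Fl 1 (RI (c + 1) k g⁻¹ - 1) :=
    inv_mem (show g ∈ QI (c + 1) k 1 from hg.mem)
  have e : RI (c + 1) k g⁻¹ - 1 - -es f =
      -((RI (c + 1) k g - 1) * (RI (c + 1) k g⁻¹ - 1)) - (RI (c + 1) k g - 1 - es f) := by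
    have h2 := RI_mul_inv g
    have e2 : (RI (c + 1) k g - 1) * (RI (c + 1) k g⁻¹ - 1) =
        RI (c + 1) k g * RI (c + 1) k g⁻¹ - RI (c + 1) k g - RI (c + 1) k g⁻¹ + 1 := by
      noncomm_ring
    rw [e2, h2]
    abel
  rw [e]
  exact (Fl.neg (hg.mem.mul h1)).sub hg

theorem Sym.pow {g : PI (c + 1) k} {f : Fin (c + 1) → k} (hg : Sym g f) (m : ℕ) :
    Sym (g ^ m) (fun i => (m : k) * f i) := by
  induction m with
  | zero =>
    rw [pow_zero]
    have : (fun i => ((0 : ℕ) : k) * f i) = 0 := by funext i; simp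
    rw [this]
    exact Sym.one
  | succ m ih =>
    rw [pow_succ]
    have := ih.mul hg
    have e : (fun i => (m : k) * f i) + f = fun i => ((m + 1 : ℕ) : k) * f i := by
      funext i
      rw [Pi.add_apply]
      push_cast
      ring
    rwa [e] at this

/-- The torus element. -/
def tor (t : Fin (c + 1) → k) (ht : ∀ i, t i ≠ 0) : PI (c + 1) k :=
  ⟨⟨Matrix.diagonal fun i => TrivSqZeroExt.inl (t i),
    Matrix.diagonal fun i => TrivSqZeroExt.inl (t i)⁻¹,
    by
      rw [Matrix.diagonal_mul_diagonal]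
      rw [← Matrix.diagonal_one]
      congr 1
      funext i
      rw [← TrivSqZeroExt.inl_mul, mul_inv_cancel₀ (ht i), TrivSqZeroExt.inl_one],
    by
      rw [Matrix.diagonal_mul_diagonal]
      rw [← Matrix.diagonal_one]
      congr 1
      funext i
      rw [← TrivSqZeroExt.inl_mul, inv_mul_cancel₀ (ht i), TrivSqZeroExt.inl_one]⟩, by
    have key : ∀ s : Fin (c + 1) → k,
        Fl 0 (Matrix.diagonal (fun i => (TrivSqZeroExt.inl (s i) : DualNumber k))) := by
      intro s
      constructor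
      · intro i j h
        simp only [lv] at h
        rw [fs_apply, Matrix.diagonal_apply_ne _ (fun h' => by rw [h'] at h; omega)]
        rfl
      · intro i j h
        simp only [lv, lw] at h
        omega
    exact ⟨key t, key _⟩⟩

theorem RI_tor (t : Fin (c + 1) → k) (ht : ∀ i, t i ≠ 0) :
    RI (c + 1) k (tor t ht) = Matrix.diagonal fun i => TrivSqZeroExt.inl (t i) := rfl

theorem RI_tor_inv (t : Fin (c + 1) → k) (ht : ∀ i, t i ≠ 0) :
    RI (c + 1) k (tor t ht)⁻¹ = Matrix.diagonal fun i => TrivSqZeroExt.inl (t i)⁻¹ := rfl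

theorem Sym.conj {g : PI (c + 1) k} {f : Fin (c + 1) → k} (hg : Sym g f)
    (t : Fin (c + 1) → k) (ht : ∀ i, t i ≠ 0) :
    Sym (tor t ht * g * (tor t ht)⁻¹) (fun i => t i * (t (i + 1))⁻¹ * f i) := by
  have h1 : RI (c + 1) k (tor t ht) * es f * RI (c + 1) k (tor t ht)⁻¹ =
      es (fun i => t i * (t (i + 1))⁻¹ * f i) := by
    rw [RI_tor, RI_tor_inv]
    ext1 x y
    rw [Matrix.mul_diagonal, Matrix.diagonal_mul, es_apply, es_apply]
    split_ifs with h
    · subst h
      rw [TrivSqZeroExt.inl_mul, TrivSqZeroExt.inl_mul]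
      ring
    · simp
  rw [Sym, ← h1, map_mul, map_mul]
  have e : RI (c + 1) k (tor t ht) * RI (c + 1) k g * RI (c + 1) k (tor t ht)⁻¹ - 1 -
      RI (c + 1) k (tor t ht) * es f * RI (c + 1) k (tor t ht)⁻¹ =
      RI (c + 1) k (tor t ht) * (RI (c + 1) k g - 1 - es f) * RI (c + 1) k (tor t ht)⁻¹ := by
    have h2 := RI_mul_inv (tor t ht)
    rw [mul_sub, sub_mul, mul_sub, sub_mul, mul_one, h2]
  rw [e]
  have h3 := ((RI_fl (tor t ht)).mul hg).mul (RI_fl (tor t ht)⁻¹)
  simpa using h3

/-- The unipotent element. -/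
def uni (c : ℕ) (k : Type) [Field k] : PI (c + 1) k :=
  ⟨⟨1 + es 1, ∑ i ∈ Finset.range ((c + 1) + (c + 1)), (-es 1) ^ i,
    by
      have h0 : (-es (1 : Fin (c + 1) → k)) ^ ((c + 1) + (c + 1)) = 0 :=
        Fl.eq_zero ((es_fl 1).neg.pow _)
      have h1 := mul_geom_sum (-es (1 : Fin (c + 1) → k)) ((c + 1) + (c + 1))
      rw [h0] at h1
      have h2 : (1 + es (1 : Fin (c + 1) → k)) = -(-es 1 - 1) := by abel
      rw [h2, neg_mul, h1]
      abel,
    by
      have h0 : (-es (1 : Fin (c + 1) → k)) ^ ((c + 1) + (c + 1)) = 0 :=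
        Fl.eq_zero ((es_fl 1).neg.pow _)
      have h1 := geom_sum_mul (-es (1 : Fin (c + 1) → k)) ((c + 1) + (c + 1))
      rw [h0] at h1
      have h2 : (1 + es (1 : Fin (c + 1) → k)) = -(-es 1 - 1) := by abel
      rw [h2, mul_neg, h1]
      abel⟩, by
    refine ⟨Fl.one.add ((es_fl 1).mono (Nat.zero_le _)), ?_⟩
    exact Fl.sum _ _ fun i _ => ((es_fl 1).neg.pow i).mono (Nat.zero_le _)⟩

theorem sym_uni : Sym (uni c k) 1 := by
  have h : RI (c + 1) k (uni c k) = 1 + es 1 := rfl
  rw [Sym, h, add_sub_cancel_left, sub_self]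
  exact Fl.zero

/-- The words with prescribed leading terms. -/
def wv : List ℕ → FreeGroup (Fin 2)
  | [] => FreeGroup.of 1
  | l :: ls => FreeGroup.of 0 * wv ls * (FreeGroup.of 0)⁻¹ * ((wv ls) ^ l)⁻¹

theorem sym_wv (t : Fin (c + 1) → k) (ht : ∀ i, t i ≠ 0) (ls : List ℕ) :
    Sym (FreeGroup.lift ![tor t ht, uni c k] (wv ls))
      (fun i => (ls.map fun l : ℕ => t i * (t (i + 1))⁻¹ - (l : k)).prod) := by
  induction ls with
  | nil =>
    simp only [wv, List.map_nil, List.prod_nil]
    rw [FreeGroup.lift_apply_of]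
    exact sym_uni
  | cons l ls ih =>
    have h := (ih.conj t ht).mul (ih.pow l).inv
    have e : FreeGroup.lift ![tor t ht, uni c k] (wv (l :: ls)) =
        tor t ht * FreeGroup.lift ![tor t ht, uni c k] (wv ls) * (tor t ht)⁻¹ *
          (FreeGroup.lift ![tor t ht, uni c k] (wv ls) ^ l)⁻¹ := by
      rw [wv, map_mul, map_mul, map_mul, map_inv, map_inv, map_pow, FreeGroup.lift_apply_of]
      rfl
    rw [e]
    convert h using 1
    funext i
    rw [Pi.add_apply, Pi.neg_apply, List.map_cons, List.prod_cons]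
    ring

theorem wv_mem_replicate (d : ℕ) :
    wv (List.replicate d 1) ∈ gam (⊤ : Subgroup (FreeGroup (Fin 2))) d := by
  induction d with
  | zero => exact Subgroup.mem_top _
  | succ d ih =>
    rw [List.replicate_succ, wv, pow_one]
    have h : ⁅(FreeGroup.of 0 : FreeGroup (Fin 2)), wv (List.replicate d 1)⁆ ∈
        gam (⊤ : Subgroup (FreeGroup (Fin 2))) (d + 1) := by
      rw [gam_succ, Subgroup.commutator_comm]
      exact Subgroup.commutator_mem_commutator (Subgroup.mem_top _) ih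
    rw [commutatorElement_def] at h
    exact h

theorem wv_mem (d : ℕ) (ls : List ℕ) :
    wv (ls ++ List.replicate d 1) ∈ gam (⊤ : Subgroup (FreeGroup (Fin 2))) d := by
  induction ls with
  | nil => exact wv_mem_replicate d
  | cons l ls ih =>
    rw [List.cons_append, wv]
    exact mul_mem ((gam_normal _ d).conj_mem _ ih _) (inv_mem (pow_mem ih l))

end Elem

end Pool.Agent.Y51.FP
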