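import Pool.Agent.Y51.FP.Base

/-!
The base case: two classes.
-/

set_option autoImplicit false
set_option linter.unusedSectionVars false
set_option linter.unusedVariables false

namespace Pool.Agent.Y51.FP

open Matrix
open scoped commutatorElement
open Pool.Agent.TH79.FS (fs sn fs_apply sn_apply fs_mul sn_mul fs_one sn_one fs_add sn_add fs_sub
  sn_sub fs_neg sn_neg fs_zero sn_zero UT)

section Words

variable {c : ℕ}

/-- The iterated commutators `[v_{c-m}, [..., [v_{c-1}, v_c]]]`. -/
def Yw (v : Fin (c + 1) → FreeGroup (Fin 2)) : ℕ → FreeGroup (Fin 2)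
  | 0 => v (Fin.last c)
  | m + 1 => ⁅v (Fin.ofNat (c + 1) (c - (m + 1))), Yw v m⁆

theorem Yw_mem {A : Subgroup (FreeGroup (Fin 2))} (v : Fin (c + 1) → FreeGroup (Fin 2))
    (hv : ∀ i, v i ∈ A) (m : ℕ) : Yw v m ∈ gam A m := by
  induction m with
  | zero => exact hv _
  | succ m ih =>
    rw [gam_succ, Subgroup.commutator_comm]
    exact Subgroup.commutator_mem_commutator (hv _) ih

end Words

section Lead

variable {c : ℕ} {k : Type} [Field k]

theorem es_single (j : Fin (c + 1)) (μ : k) :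
    es (Pi.single j μ) = Matrix.single j (j + 1) (TrivSqZeroExt.inl μ * wt j) := by
  ext1 x y
  rw [es_apply, Matrix.single_apply]
  by_cases h : j = x
  · subst h
    by_cases h2 : j + 1 = y
    · rw [if_pos h2.symm, if_pos ⟨rfl, h2⟩, Pi.single_eq_same]
    · rw [if_neg (fun h => h2 h.symm), if_neg (fun h => h2 h.2)]
  · rw [if_neg (fun h' : j = x ∧ j + 1 = y => h h'.1), Pi.single_eq_of_ne (fun h' => h h'.symm)]
    simp

theorem lead (hc : 1 ≤ c) (g : Fin (c + 1) → PI (c + 1) k) (μ : Fin (c + 1) → k)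
    (hμ : ∀ i, μ i ≠ 0) (hg : ∀ i, Sym (g i) (Pi.single i (μ i)))
    (Y : ℕ → PI (c + 1) k) (hY0 : Y 0 = g (Fin.last c))
    (hY : ∀ m, Y (m + 1) = ⁅g (Fin.ofNat (c + 1) (c - (m + 1))), Y m⁆) (m : ℕ) (hm : m < c) :
    ∃ N : k, N ≠ 0 ∧ Fl (m + 2) (RI (c + 1) k (Y m) - 1 -
      Matrix.single (Fin.ofNat (c + 1) (c - m)) 0 (TrivSqZeroExt.inr N)) := by
  induction m with
  | zero =>
    refine ⟨μ (Fin.last c), hμ _, ?_⟩
    have h := hg (Fin.last c)
    rw [Sym, es_single] at h
    have e1 : (Fin.ofNat (c + 1) (c - 0)) = Fin.last c := by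
      apply Fin.ext
      simp [Fin.ofNat]
    have e2 : (Fin.last c + 1 : Fin (c + 1)) = 0 := Fin.last_add_one c
    have e3 : (TrivSqZeroExt.inl (μ (Fin.last c)) * wt (Fin.last c) : DualNumber k) =
        TrivSqZeroExt.inr (μ (Fin.last c)) := by
      rw [wt, if_pos rfl]
      ext <;> simp
    rw [hY0, e1, ← e3]
    rw [e2] at h
    exact h
  | succ m ih =>
    obtain ⟨N, hN, hF⟩ := ih (by omega)
    set j : Fin (c + 1) := Fin.ofNat (c + 1) (c - (m + 1)) with hj
    have hjv : j.val = c - (m + 1) := by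
      simp only [hj, Fin.ofNat]
      exact Nat.mod_eq_of_lt (by omega)
    have hjl : j ≠ Fin.last c := by
      intro h
      rw [h, Fin.val_last] at hjv
      omega
    have hj1 : Fin.ofNat (c + 1) (c - m) = j + 1 := by
      apply Fin.ext
      rw [val_succ hjl, hjv]
      simp only [Fin.ofNat]
      rw [Nat.mod_eq_of_lt (by omega)]
      omega
    have hj0 : j ≠ 0 := by
      intro h
      rw [h] at hjv
      simp at hjv
      omega
    refine ⟨μ j * N, mul_ne_zero (hμ j) hN, ?_⟩
    rw [hY]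
    have hx : es (Pi.single j (μ j)) = Matrix.single j (j + 1) (TrivSqZeroExt.inl (μ j)) := by
      rw [es_single, wt, if_neg hjl, mul_one]
    have h1 : Fl 1 (es (Pi.single j (μ j))) := es_fl _
    have h2 : Fl (m + 1) (Matrix.single (Fin.ofNat (c + 1) (c - m)) 0
        (TrivSqZeroExt.inr N : DualNumber k)) := by
      constructor
      · intro x y _
        rw [fs_apply, Matrix.single_apply]
        split_ifs <;> simp
      · intro x y hxy
        simp only [lv, lw] at hxy
        rw [sn_apply, Matrix.single_apply]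
        split_ifs with h3
        · exfalso
          rw [hj1] at h3
          rw [← h3.1, ← h3.2, val_succ hjl, hjv] at hxy
          simp at hxy
          omega
        · rfl
    have h3 := comm_sym (le_refl 1) (by omega : 1 ≤ m + 1) h1 h2 (hg j) hF
    rw [hx, hj1, Matrix.single_mul_single_same, Matrix.single_mul_single_of_ne _ _ _ _ (Ne.symm hj0),
      sub_zero] at h3
    have e4 : (TrivSqZeroExt.inl (μ j) * TrivSqZeroExt.inr N : DualNumber k) =
        TrivSqZeroExt.inr (μ j * N) := by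
      ext <;> simp [mul_comm]
    rw [e4] at h3
    rwa [show 1 + (m + 1) + 1 = m + 1 + 2 by ring] at h3

theorem lead_last (hc : 1 ≤ c) (g : Fin (c + 1) → PI (c + 1) k) (μ : Fin (c + 1) → k)
    (hμ : ∀ i, μ i ≠ 0) (hg : ∀ i, Sym (g i) (Pi.single i (μ i)))
    (Y : ℕ → PI (c + 1) k) (hY0 : Y 0 = g (Fin.last c))
    (hY : ∀ m, Y (m + 1) = ⁅g (Fin.ofNat (c + 1) (c - (m + 1))), Y m⁆) :
    ∃ N : k, N ≠ 0 ∧ Fl (c + 2) (RI (c + 1) k (Y c) - 1 -
      (Matrix.single 0 0 (TrivSqZeroExt.inr N) - Matrix.single 1 1 (TrivSqZeroExt.inr N))) := by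
  obtain ⟨m, rfl⟩ : ∃ m, c = m + 1 := ⟨c - 1, by omega⟩
  obtain ⟨N, hN, hF⟩ := lead hc g μ hμ hg Y hY0 hY m (by omega)
  have h0l : (0 : Fin (m + 1 + 1)) ≠ Fin.last (m + 1) := by
    intro h
    have := congrArg Fin.val h
    simp at this
  have hj1 : Fin.ofNat (m + 1 + 1) (m + 1 - m) = 1 := by
    apply Fin.ext
    simp [Fin.ofNat]
  have hj0 : Fin.ofNat (m + 1 + 1) (m + 1 - (m + 1)) = 0 := by
    apply Fin.ext
    simp [Fin.ofNat]
  refine ⟨μ 0 * N, mul_ne_zero (hμ 0) hN, ?_⟩
  rw [hY, hj0]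
  have hx : es (Pi.single (0 : Fin (m + 1 + 1)) (μ 0)) =
      Matrix.single 0 1 (TrivSqZeroExt.inl (μ 0)) := by
    rw [es_single, wt, if_neg h0l, mul_one, zero_add]
  have h1 : Fl 1 (es (Pi.single (0 : Fin (m + 1 + 1)) (μ 0))) := es_fl _
  rw [hj1] at hF
  have h2 : Fl (m + 1) (Matrix.single (1 : Fin (m + 1 + 1)) 0
      (TrivSqZeroExt.inr N : DualNumber k)) := by
    constructor
    · intro x y _
      rw [fs_apply, Matrix.single_apply]
      split_ifs <;> simp
    · intro x y hxy
      simp only [lv, lw] at hxy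
      rw [sn_apply, Matrix.single_apply]
      split_ifs with h3
      · exfalso
        rw [← h3.1, ← h3.2] at hxy
        simp at hxy
        omega
      · rfl
  have h3 := comm_sym (le_refl 1) (by omega : 1 ≤ m + 1) h1 h2 (hg 0) hF
  rw [hx, Matrix.single_mul_single_same, Matrix.single_mul_single_same] at h3
  have e4 : (TrivSqZeroExt.inl (μ 0) * TrivSqZeroExt.inr N : DualNumber k) =
      TrivSqZeroExt.inr (μ 0 * N) := by
    ext <;> simp [mul_comm]
  have e5 : (TrivSqZeroExt.inr N * TrivSqZeroExt.inl (μ 0) : DualNumber k) =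
      TrivSqZeroExt.inr (μ 0 * N) := by
    rw [mul_comm, e4]
  rw [e4, e5] at h3
  rwa [show 1 + (m + 1) + 1 = m + 1 + 2 by ring] at h3

end Lead

section Exist

/-- The torus weights. -/
theorem exists_weights (c : ℕ) (hc : 1 ≤ c) : ∃ (p : ℕ) (_ : Fact p.Prime) (t : Fin (c + 1) → ZMod p),
    (∀ i, t i ≠ 0) ∧ (∀ i, t i * (t (i + 1))⁻¹ ≠ 1) ∧
    Function.Injective (fun i => t i * (t (i + 1))⁻¹) := by
  obtain ⟨p, hp, hpp⟩ := Nat.exists_infinite_primes ((c + 1).factorial * (c + 2) + 1)
  have hpf : Fact p.Prime := ⟨hpp⟩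
  have hfpos : 0 < (c + 1).factorial := Nat.factorial_pos _
  have hcp : c + 2 < p := by
    have : c + 2 ≤ (c + 1).factorial * (c + 2) := Nat.le_mul_of_pos_left _ hfpos
    omega
  have hcast : ∀ a b : ℕ, a < p → b < p → ((a : ZMod p) = b ↔ a = b) := by
    intro a b ha hb
    rw [ZMod.natCast_eq_natCast_iff', Nat.mod_eq_of_lt ha, Nat.mod_eq_of_lt hb]
  have hfac : ∀ m : ℕ, m < p → ((m.factorial : ℕ) : ZMod p) ≠ 0 := by
    intro m hm h
    rw [ZMod.natCast_eq_zero_iff] at h
    exact absurd ((Nat.Prime.dvd_factorial hpp).1 h) (by omega)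
  let t : Fin (c + 1) → ZMod p := fun i => (((i.val + 1).factorial : ℕ) : ZMod p)⁻¹
  have ht : ∀ i, t i ≠ 0 := fun i => inv_ne_zero (hfac _ (by omega))
  have hlam : ∀ i : Fin (c + 1), i ≠ Fin.last c →
      t i * (t (i + 1))⁻¹ = ((i.val + 2 : ℕ) : ZMod p) := by
    intro i hi
    simp only [t]
    rw [inv_inv, val_succ hi, Nat.factorial_succ (i.val + 1), Nat.cast_mul, mul_comm,
      mul_assoc, mul_inv_cancel₀ (hfac _ (by omega)), mul_one]
  have hlast : t (Fin.last c) * (t (Fin.last c + 1))⁻¹ =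
      (((c + 1).factorial : ℕ) : ZMod p)⁻¹ := by
    simp only [t]
    rw [Fin.last_add_one]
    simp
  have hne : ∀ m : ℕ, 1 ≤ m → m ≤ c + 2 → (((c + 1).factorial : ℕ) : ZMod p)⁻¹ ≠ (m : ZMod p) := by
    intro m h1 h2 h
    have h3 : (((c + 1).factorial * m : ℕ) : ZMod p) = ((1 : ℕ) : ZMod p) := by
      rw [Nat.cast_mul, ← h, mul_inv_cancel₀ (hfac _ (by omega)), Nat.cast_one]
    have h4 : (c + 1).factorial * m ≤ (c + 1).factorial * (c + 2) := Nat.mul_le_mul_left _ h2
    rw [hcast _ _ (by omega) (by omega)] at h3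
    have h5 : 2 ≤ (c + 1).factorial := by
      calc 2 = (2).factorial := rfl
        _ ≤ (c + 1).factorial := Nat.factorial_le (by omega)
    nlinarith
  refine ⟨p, hpf, t, ht, ?_, ?_⟩
  · intro i
    by_cases hi : i = Fin.last c
    · rw [hi, hlast]
      have := hne 1 le_rfl (by omega)
      rwa [Nat.cast_one] at this
    · rw [hlam i hi]
      intro h
      have h1 : ((i.val + 2 : ℕ) : ZMod p) = ((1 : ℕ) : ZMod p) := by rw [h, Nat.cast_one]
      rw [hcast _ _ (by omega) (by omega)] at h1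
      omega
  · intro i j hij
    simp only at hij
    by_cases hi : i = Fin.last c
    · by_cases hj : j = Fin.last c
      · rw [hi, hj]
      · rw [hi, hlast, hlam j hj] at hij
        exact (hne _ (by omega) (by omega) hij).elim
    · by_cases hj : j = Fin.last c
      · rw [hj, hlast, hlam i hi] at hij
        exact (hne _ (by omega) (by omega) hij.symm).elim
      · rw [hlam i hi, hlam j hj, hcast _ _ (by omega) (by omega)] at hij
        apply Fin.ext
        omega

instance (n p : ℕ) [Fact p.Prime] : Finite (PI n (ZMod p)) := by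
  have h1 : Finite (DualNumber (ZMod p)) := inferInstanceAs (Finite (ZMod p × ZMod p))
  have h2 : Finite (DM n (ZMod p)) := inferInstanceAs (Finite (Fin n → Fin n → DualNumber (ZMod p)))
  have h3 : Finite (DM n (ZMod p))ˣ := inferInstance
  infer_instance

theorem dat_base {c d : ℕ} (hc : 1 ≤ c) (hd : 1 ≤ d) : Dat c [d] := by
  classical
  obtain ⟨p, hp, t, ht, ht1, hti⟩ := exists_weights c hc
  let lam : Fin (c + 1) → ZMod p := fun i => t i * (t (i + 1))⁻¹
  let ls : Fin (c + 1) → List ℕ := fun j =>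
    (Finset.univ.erase j).toList.map (fun i => (lam i).val) ++ List.replicate d 1
  let v : Fin (c + 1) → FreeGroup (Fin 2) := fun j => wv (ls j)
  let μ : Fin (c + 1) → ZMod p := fun j =>
    ((ls j).map fun l : ℕ => lam j - (l : ZMod p)).prod
  let th : FreeGroup (Fin 2) →* PI (c + 1) (ZMod p) :=
    FreeGroup.lift ![tor t ht, uni c (ZMod p)]
  have hval : ∀ i, (((lam i).val : ℕ) : ZMod p) = lam i := fun i => ZMod.natCast_zmod_val _
  have hμ : ∀ j, μ j ≠ 0 := by
    intro j
    rw [Ne, List.prod_eq_zero_iff, List.mem_map]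
    rintro ⟨l, hl, hl0⟩
    rcases List.mem_append.1 hl with h | h
    · obtain ⟨i, hi, rfl⟩ := List.mem_map.1 h
      rw [Finset.mem_toList, Finset.mem_erase] at hi
      rw [hval, sub_eq_zero] at hl0
      exact hi.1 (hti hl0).symm
    · rw [List.eq_of_mem_replicate h, Nat.cast_one, sub_eq_zero] at hl0
      exact ht1 j hl0
  have hsym : ∀ j, Sym (th (v j)) (Pi.single j (μ j)) := by
    intro j
    have h := sym_wv t ht (ls j)
    convert h using 1
    funext i
    by_cases hij : i = j
    · subst hij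
      rw [Pi.single_eq_same]
    · rw [Pi.single_eq_of_ne hij]
      symm
      rw [List.prod_eq_zero_iff, List.mem_map]
      refine ⟨(lam i).val, ?_, ?_⟩
      · apply List.mem_append_left
        rw [List.mem_map]
        exact ⟨i, by rw [Finset.mem_toList, Finset.mem_erase]; exact ⟨hij, Finset.mem_univ _⟩, rfl⟩
      · rw [hval]
        exact sub_self _
  obtain ⟨N, hN, hF⟩ := lead_last hc (fun j => th (v j)) μ hμ hsym (fun m => th (Yw v m)) rfl
    (fun m => by simp only [Yw, map_commutatorElement])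
  refine ⟨PI (c + 1) (ZMod p), inferInstance, inferInstance, Fin (c + 1), inferInstance,
    inferInstance, ZMod p, inferInstance, lv, RI (c + 1) (ZMod p), pgood_RI hc hd,
    tor t ht, uni c (ZMod p), tor t ht, Yw v c, ?_, ?_⟩
  · exact Yw_mem v (fun j => wv_mem d _) c
  · have hd0 : ∀ i : Fin (c + 1), sn (RI (c + 1) (ZMod p) (th (Yw v c))) i i =
        (if i = 0 then N else 0) - (if i = 1 then N else 0) := by
      intro i
      have h := hF.2 i i (by simp only [lv, lw]; omega)
      rw [sn_sub, sn_sub, sn_one, sub_zero, Matrix.sub_apply, sub_eq_zero] at h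
      rw [h, sn_sub, Matrix.sub_apply, sn_apply, sn_apply, Matrix.single_apply,
        Matrix.single_apply]
      congr 1
      · by_cases h1 : i = 0
        · rw [if_pos h1, if_pos ⟨h1.symm, h1.symm⟩]; simp
        · rw [if_neg h1, if_neg (fun h2 => h1 h2.1.symm)]; simp
      · by_cases h1 : i = 1
        · rw [if_pos h1, if_pos ⟨h1.symm, h1.symm⟩]; simp
        · rw [if_neg h1, if_neg (fun h2 => h1 h2.1.symm)]; simp
    have hfs : fs (RI (c + 1) (ZMod p) (tor t ht)) = Matrix.diagonal t := by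
      rw [RI_tor]
      ext x y
      rw [fs_apply, Matrix.diagonal_apply, Matrix.diagonal_apply]
      split_ifs <;> simp
    show (sn (RI (c + 1) (ZMod p) (th (Yw v c))) * fs (RI (c + 1) (ZMod p) (tor t ht))).trace ≠ 0
    rw [hfs, Matrix.trace]
    simp only [Matrix.diag_apply, Matrix.mul_diagonal, hd0, sub_mul, ite_mul, zero_mul]
    rw [Finset.sum_sub_distrib, Finset.sum_ite_eq' Finset.univ (0 : Fin (c + 1)),
      Finset.sum_ite_eq' Finset.univ (1 : Fin (c + 1)), if_pos (Finset.mem_univ _),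
      if_pos (Finset.mem_univ _), ← mul_sub]
    apply mul_ne_zero hN
    rw [sub_ne_zero]
    intro h
    apply ht1 0
    rw [zero_add, ← h, mul_inv_cancel₀ (ht 0)]

theorem dat_all (c : ℕ) (cs : List ℕ) (hc : 1 ≤ c) (hne : cs ≠ []) (hpos : ∀ d ∈ cs, 1 ≤ d) :
    Dat c cs := by
  cases cs with
  | nil => exact (hne rfl).elim
  | cons d cs =>
    have hd : 1 ≤ d := hpos d (by simp)
    have key : ∀ l : List ℕ, (∀ x ∈ l, 1 ≤ x) → Dat c ([d] ++ l) := by
      intro l
      induction l using List.reverseRecOn with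
      | nil => intro _; rw [List.append_nil]; exact dat_base hc hd
      | append_singleton l x ih =>
        intro hl
        rw [← List.append_assoc]
        exact dat_append (hl x (by simp)) (ih fun y hy => hl y (by simp [hy]))
    exact key cs fun x hx => hpos x (List.mem_cons_of_mem d hx)

end Exist

end Pool.Agent.Y51.FP
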