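import Mathlib

/-!
Iterated lower central series: the verbal subgroups defining the free polynilpotent groups.
-/

set_option autoImplicit false

namespace Pool.Agent.Y51.FP

open scoped commutatorElement

variable {G H K : Type} [Group G] [Group H] [Group K]

/-- The term of index `n + 1` of the lower central series of the subgroup `A`, as a subgroup of
the whole group: `gam A 0 = A` and `gam A (n + 1) = [gam A n, A]`. -/
def gam (A : Subgroup G) : ℕ → Subgroup G
  | 0 => A
  | n + 1 => ⁅gam A n, A⁆

/-- Iterated lower central series: `GG A [] = A` and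
`GG A (c :: cs) = gam (GG A cs) c`. -/
def GG (A : Subgroup G) : List ℕ → Subgroup G
  | [] => A
  | c :: cs => gam (GG A cs) c

theorem gam_zero (A : Subgroup G) : gam A 0 = A := rfl

theorem gam_succ (A : Subgroup G) (n : ℕ) : gam A (n + 1) = ⁅gam A n, A⁆ := rfl

theorem gam_one (A : Subgroup G) : gam A 1 = ⁅A, A⁆ := rfl

theorem GG_cons (A : Subgroup G) (c : ℕ) (cs : List ℕ) : GG A (c :: cs) = gam (GG A cs) c := rfl

theorem gam_mono {A B : Subgroup G} (h : A ≤ B) (n : ℕ) : gam A n ≤ gam B n := by
  induction n with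
  | zero => exact h
  | succ n ih => exact Subgroup.commutator_mono ih h

theorem GG_mono {A B : Subgroup G} (h : A ≤ B) (cs : List ℕ) : GG A cs ≤ GG B cs := by
  induction cs with
  | nil => exact h
  | cons c cs ih => exact gam_mono ih c

theorem map_gam (f : G →* H) (A : Subgroup G) (n : ℕ) : (gam A n).map f = gam (A.map f) n := by
  induction n with
  | zero => rfl
  | succ n ih => rw [gam_succ, gam_succ, Subgroup.map_commutator, ih]

theorem map_GG (f : G →* H) (A : Subgroup G) (cs : List ℕ) :
    (GG A cs).map f = GG (A.map f) cs := by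
  induction cs with
  | nil => rfl
  | cons c cs ih => rw [GG_cons, GG_cons, map_gam, ih]

theorem GG_append (A : Subgroup G) (cs : List ℕ) (c : ℕ) :
    GG A (cs ++ [c]) = GG (gam A c) cs := by
  induction cs with
  | nil => rfl
  | cons d cs ih => rw [List.cons_append, GG_cons, GG_cons, ih]

instance gam_normal (A : Subgroup G) [A.Normal] (n : ℕ) : (gam A n).Normal := by
  induction n with
  | zero => assumption
  | succ n ih => exact Subgroup.commutator_normal _ _

instance GG_normal (A : Subgroup G) [A.Normal] (cs : List ℕ) : (GG A cs).Normal := by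
  induction cs with
  | nil => assumption
  | cons c cs ih => exact gam_normal _ _

theorem gam_succ_le (A : Subgroup G) [A.Normal] (n : ℕ) : gam A (n + 1) ≤ gam A n :=
  Subgroup.commutator_le_left _ _

theorem gam_anti (A : Subgroup G) [A.Normal] {m n : ℕ} (h : m ≤ n) : gam A n ≤ gam A m := by
  induction n, h using Nat.le_induction with
  | base => exact le_rfl
  | succ n _ ih => exact (gam_succ_le A n).trans ih

theorem gam_le (A : Subgroup G) [A.Normal] (n : ℕ) : gam A n ≤ A := gam_anti A (Nat.zero_le n)

theorem GG_le (A : Subgroup G) [A.Normal] (cs : List ℕ) : GG A cs ≤ A := by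
  induction cs with
  | nil => exact le_rfl
  | cons c cs ih => exact (gam_le _ c).trans ih

/-- Homomorphisms map the iterated lower central series into itself. -/
theorem mem_GG_of_hom (f : G →* H) {cs : List ℕ} {w : G} (hw : w ∈ GG (⊤ : Subgroup G) cs) :
    f w ∈ GG (⊤ : Subgroup H) cs := by
  have h := Subgroup.mem_map_of_mem f hw
  rw [map_GG] at h
  exact GG_mono le_top cs h

/-- Homomorphisms into `gam ⊤ c` append `c` to the list of classes. -/
theorem mem_GG_append_of_hom (f : G →* H) {c : ℕ} (hf : ∀ g, f g ∈ gam (⊤ : Subgroup H) c)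
    {cs : List ℕ} {w : G} (hw : w ∈ GG (⊤ : Subgroup G) cs) :
    f w ∈ GG (⊤ : Subgroup H) (cs ++ [c]) := by
  have h := Subgroup.mem_map_of_mem f hw
  rw [map_GG] at h
  rw [GG_append]
  refine GG_mono ?_ cs h
  rintro _ ⟨g, _, rfl⟩
  exact hf g

theorem derived_eq (n : ℕ) : derivedSeries G n = GG (⊤ : Subgroup G) (List.replicate n 1) := by
  induction n with
  | zero => rfl
  | succ n ih => rw [derivedSeries_succ, ih, List.replicate_succ, GG_cons, gam_one]

/-- Elements of a nontrivial member of the series lie in the commutator subgroup. -/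
theorem GG_le_commutator {cs : List ℕ} (hne : cs ≠ []) (hpos : ∀ c ∈ cs, 1 ≤ c) :
    GG (⊤ : Subgroup G) cs ≤ commutator G := by
  obtain ⟨cs, c, rfl⟩ : ∃ l a, cs = l ++ [a] := by
    rcases List.eq_nil_or_concat cs with h | ⟨l, a, h⟩
    · exact (hne h).elim
    · exact ⟨l, a, by rw [h, List.concat_eq_append]⟩
  rw [GG_append]
  have hc : 1 ≤ c := hpos c (by simp)
  have h1 : gam (⊤ : Subgroup G) c ≤ commutator G := (gam_anti ⊤ hc).trans (by
    rw [gam_one]; rfl)
  exact (GG_le _ _).trans h1

/-! ### endomorphisms which are trivial modulo the commutator subgroup of a nilpotent subgroup -/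

/-- The special case of the three subgroups lemma. -/
theorem gam_comm_two (A : Subgroup G) [A.Normal] (n : ℕ) :
    ⁅gam A n, gam A 1⁆ ≤ gam A (n + 2) := by
  let q : G →* G ⧸ gam A (n + 2) := QuotientGroup.mk' _
  have hk : q.ker = gam A (n + 2) := QuotientGroup.ker_mk' _
  have key : (⁅gam A n, gam A 1⁆).map q = ⊥ := by
    have h0 : ⁅⁅(gam A n).map q, A.map q⁆, A.map q⁆ = ⊥ := by
      rw [← Subgroup.map_commutator, ← Subgroup.map_commutator, ← gam_succ, ← gam_succ,
        Subgroup.map_eq_bot_iff, hk]
    rw [Subgroup.map_commutator, gam_one, Subgroup.map_commutator, Subgroup.commutator_comm]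
    apply Subgroup.commutator_commutator_eq_bot_of_rotate
    · rw [Subgroup.commutator_comm (A.map q) ((gam A n).map q)]
      exact h0
    · exact h0
  rw [Subgroup.map_eq_bot_iff, hk] at key
  exact key

theorem endo_step (A : Subgroup G) [A.Normal] (δ : G →* G) (h : ∀ g, g⁻¹ * δ g ∈ gam A 1) :
    ∀ n, ∀ w ∈ gam A n, w⁻¹ * δ w ∈ gam A (n + 1) := by
  intro n
  induction n with
  | zero => exact fun w _ => h w
  | succ n ih =>
    -- compare in the quotient
    let N := gam A (n + 2)
    let q : G →* G ⧸ N := QuotientGroup.mk' N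
    have hq : ∀ x, q x = 1 ↔ x ∈ N := fun x => QuotientGroup.eq_one_iff x
    let E : Subgroup G :=
      { carrier := {w | q (δ w) = q w}
        one_mem' := by simp
        mul_mem' := by
          intro a b ha hb
          show q (δ (a * b)) = q (a * b)
          rw [map_mul, map_mul, map_mul, show q (δ a) = q a from ha, show q (δ b) = q b from hb]
        inv_mem' := by
          intro a ha
          show q (δ a⁻¹) = q a⁻¹
          rw [map_inv, map_inv, map_inv, show q (δ a) = q a from ha] }
    have hE : gam A (n + 1) ≤ E := by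
      rw [gam_succ, Subgroup.commutator_le]
      intro a ha b hb
      show q (δ ⁅a, b⁆) = q ⁅a, b⁆
      obtain ⟨a', ha', rfl'⟩ : ∃ a' ∈ gam A (n + 1), δ a = a * a' :=
        ⟨a⁻¹ * δ a, ih a ha, by group⟩
      obtain ⟨b', hb', rfl''⟩ : ∃ b' ∈ gam A 1, δ b = b * b' := ⟨b⁻¹ * δ b, h b, by group⟩
      rw [map_commutatorElement, rfl', rfl'']
      have haA : a ∈ A := gam_le A n ha
      have hbb : b * b' ∈ A := mul_mem hb (gam_le A 1 hb')
      -- `a'` commutes with `A` modulo `N`
      have c1 : q ⁅a', b * b'⁆ = 1 := by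
        rw [hq]
        exact Subgroup.commutator_mem_commutator ha' hbb
      have c2 : q ⁅a, b'⁆ = 1 := by
        rw [hq]
        exact gam_comm_two A n (Subgroup.commutator_mem_commutator ha hb')
      have e1 : ⁅a * a', b * b'⁆ = a * ⁅a', b * b'⁆ * a⁻¹ * (⁅a, b⁆ * (b * ⁅a, b'⁆ * b⁻¹)) := by
        simp only [commutatorElement_def]; group
      rw [e1]
      simp only [map_mul, map_inv, c1, c2]
      group
    intro w hw
    have h1 : q (δ w) = q w := hE hw
    rw [← hq, map_mul, map_inv, h1, inv_mul_cancel]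

theorem endo_bij (A : Subgroup G) [A.Normal] (δ : G →* G) (h : ∀ g, g⁻¹ * δ g ∈ gam A 1)
    {c : ℕ} (hc : gam A c = ⊥) : Function.Bijective δ := by
  have key : ∀ n, (∀ w ∈ gam A n, δ w = 1 → w = 1) ∧ (∀ w ∈ gam A n, ∃ v ∈ gam A n, δ v = w) := by
    have hstep : ∀ n, ((∀ w ∈ gam A (n + 1), δ w = 1 → w = 1) ∧
        (∀ w ∈ gam A (n + 1), ∃ v ∈ gam A (n + 1), δ v = w)) →
        ((∀ w ∈ gam A n, δ w = 1 → w = 1) ∧ (∀ w ∈ gam A n, ∃ v ∈ gam A n, δ v = w)) := by
      rintro n ⟨h1, h2⟩
      constructor
      · intro w hw hδ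
        have h3 := endo_step A δ h n w hw
        rw [hδ, mul_one] at h3
        exact h1 w ((Subgroup.inv_mem_iff _).1 h3) hδ
      · intro w hw
        obtain ⟨v, hv, hvw⟩ := h2 _ (endo_step A δ h n w hw)
        refine ⟨w * v⁻¹, mul_mem hw (inv_mem (gam_succ_le A n hv)), ?_⟩
        rw [map_mul, map_inv, hvw]
        group
    have hbase : ∀ n, c ≤ n → ((∀ w ∈ gam A n, δ w = 1 → w = 1) ∧
        (∀ w ∈ gam A n, ∃ v ∈ gam A n, δ v = w)) := by
      intro n hn
      have hb : gam A n = ⊥ := le_bot_iff.1 ((gam_anti A hn).trans hc.le)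
      rw [hb]
      refine ⟨fun w hw _ => by simpa using hw, fun w hw => ⟨1, one_mem _, ?_⟩⟩
      have : w = 1 := by simpa using hw
      rw [this, map_one]
    intro n
    by_cases hn : c ≤ n
    · exact hbase n hn
    · have : ∀ j, j ≤ c → ((∀ w ∈ gam A (c - j), δ w = 1 → w = 1) ∧
          (∀ w ∈ gam A (c - j), ∃ v ∈ gam A (c - j), δ v = w)) := by
        intro j
        induction j with
        | zero => intro _; exact hbase c le_rfl
        | succ j ih =>
          intro hj
          have h1 := ih (by omega)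
          have e : c - j = (c - (j + 1)) + 1 := by omega
          rw [e] at h1
          exact hstep _ h1
      have h2 := this (c - n) (by omega)
      rwa [show c - (c - n) = n by omega] at h2
  constructor
  · rw [injective_iff_map_eq_one]
    intro w hw
    have h3 := h w
    rw [hw, mul_one] at h3
    exact (key 1).1 w ((Subgroup.inv_mem_iff _).1 h3) hw
  · intro w
    obtain ⟨v, _, hvw⟩ := (key 1).2 _ (h w)
    refine ⟨w * v⁻¹, ?_⟩
    rw [map_mul, map_inv, hvw]
    group

end Pool.Agent.Y51.FP
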