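import Pool.Agent.TH79.FS.Detect
import Pool.Agent.Y51.FP.Series

/-!
The Fox Jacobian for representations adapted to an iterated lower central series.
-/

set_option autoImplicit false
set_option linter.unusedSectionVars false
set_option linter.unusedVariables false

namespace Pool.Agent.Y51.FP

open Matrix
open scoped commutatorElement
open Pool.Agent.TH79.FS hiding Good Good.comp fox_ut0 fox_ut1 fox_es jac_ut Cong jac_congr jac_left_inv dl_congr PGood good_twist EE EE_eq EE_one EE_mul not_fg SG lft mk_lft cong_of_mk cong_lft_inv cong_lft_mul cong_comp_inv map_lft_inv map_lft_inv' exists_aut wild_mod wild_wild exists_wild_aut mk_comm coeff_wild not_fg_of_trace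

section Good

variable {X ι R : Type} [Fintype ι] [DecidableEq ι] [CommRing R]

/-- The conditions on a representation: triangular modulo epsilon, the derived subgroup of step
`e + 1` is unipotent modulo epsilon, and the derived subgroup of step `e + 2` is trivial modulo
epsilon with triangular epsilon part. -/
structure Good (c : ℕ) (cs : List ℕ) (lev : ι → ℕ)
    (ρ : FreeGroup X →* Matrix ι ι (DualNumber R)) : Prop where
  hA : ∀ w, UT lev lev 0 (fs (ρ w))
  hB : ∀ w ∈ GG (⊤ : Subgroup (FreeGroup X)) cs, UT lev lev 1 (fs (ρ w) - 1)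
  hC : ∀ w ∈ GG (⊤ : Subgroup (FreeGroup X)) (c :: cs),
    fs (ρ w) = 1 ∧ UT lev lev 0 (sn (ρ w))
  hc : 1 ≤ c

theorem Good.comp {c : ℕ} {cs : List ℕ} {lev : ι → ℕ} {ρ : FreeGroup X →* Matrix ι ι (DualNumber R)}
    (h : Good c cs lev ρ) (α : FreeGroup X →* FreeGroup X) : Good c cs lev (ρ.comp α) where
  hA w := h.hA (α w)
  hB w hw := h.hB _ (mem_GG_of_hom α hw)
  hC w hw := h.hC _ (mem_GG_of_hom α hw)
  hc := h.hc

variable [DecidableEq X]

theorem fox_ut0 {c : ℕ} {cs : List ℕ} {lev : ι → ℕ} {ρ : FreeGroup X →* Matrix ι ι (DualNumber R)}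
    (h : Good c cs lev ρ) (w : FreeGroup X) : UT lev (levK X lev) 0 (fs (fox ρ w)) := by
  have hd := isDer_fox ρ
  induction w using FreeGroup.induction_on with
  | C1 => rw [hd.one]; exact UT.zero
  | of x =>
    rw [fox_of]
    intro i q hq
    rw [fs_apply]
    simp only [unitRow, Matrix.of_apply]
    rw [if_neg]
    · simp
    · rintro rfl
      simp [levK] at hq
  | inv_of x ih =>
    rw [hd.inv, fs_neg, fs_mul]
    exact ((h.hA _).mul ih).neg
  | mul a b ha hb =>
    rw [hd, fs_add, fs_mul]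
    exact ha.add ((h.hA _).mul hb)

theorem fox_ut1 {c : ℕ} {cs : List ℕ} {lev : ι → ℕ} {ρ : FreeGroup X →* Matrix ι ι (DualNumber R)}
    (h : Good c cs lev ρ) : ∀ w ∈ GG (⊤ : Subgroup (FreeGroup X)) (c :: cs),
      UT lev (levK X lev) 1 (fs (fox ρ w)) := by
  have hd := isDer_fox ρ
  let H : Subgroup (FreeGroup X) :=
    { carrier := {w | UT lev (levK X lev) 1 (fs (fox ρ w))}
      one_mem' := by
        show UT lev (levK X lev) 1 (fs (fox ρ 1))
        rw [hd.one]; exact UT.zero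
      mul_mem' := by
        intro a b ha hb
        show UT lev (levK X lev) 1 (fs (fox ρ (a * b)))
        rw [hd, fs_add, fs_mul]
        have := (h.hA a).mul hb
        rw [zero_add] at this
        exact UT.add ha this
      inv_mem' := by
        intro a ha
        show UT lev (levK X lev) 1 (fs (fox ρ a⁻¹))
        rw [hd.inv, fs_neg, fs_mul]
        have := (h.hA a⁻¹).mul ha
        rw [zero_add] at this
        exact this.neg }
  have hle : GG (⊤ : Subgroup (FreeGroup X)) (c :: cs) ≤ H := by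
    rw [GG_cons]
    refine (gam_anti _ h.hc).trans ?_
    rw [gam_one, Subgroup.commutator_le]
    intro a ha b hb
    show UT lev (levK X lev) 1 (fs (fox ρ ⁅a, b⁆))
    rw [hd.commutator, fs_add, fs_mul, fs_mul, fs_sub, fs_sub, fs_one]
    have h1 : a * b * a⁻¹ ∈ GG (⊤ : Subgroup (FreeGroup X)) cs :=
      mul_mem (mul_mem ha hb) (inv_mem ha)
    have h2 : ⁅a, b⁆ ∈ GG (⊤ : Subgroup (FreeGroup X)) cs := by
      rw [commutatorElement_def]
      exact mul_mem h1 (inv_mem hb)
    have h3 : UT lev lev 1 (1 - fs (ρ (a * b * a⁻¹))) := by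
      have := (h.hB _ h1).neg
      rwa [neg_sub] at this
    have h4 : UT lev lev 1 (fs (ρ a) - fs (ρ ⁅a, b⁆)) := by
      have := (h.hB _ ha).sub (h.hB _ h2)
      rwa [sub_sub_sub_cancel_right] at this
    exact (h3.mul (fox_ut0 h a)).add (h4.mul (fox_ut0 h b))
  exact fun w hw => hle hw

theorem fox_es {c : ℕ} {cs : List ℕ} {lev : ι → ℕ} {ρ : FreeGroup X →* Matrix ι ι (DualNumber R)}
    (h : Good c cs lev ρ) : ∀ w ∈ gam (GG (⊤ : Subgroup (FreeGroup X)) (c :: cs)) 1,
      fs (fox ρ w) = 0 ∧ UT lev (levK X lev) 1 (sn (fox ρ w)) := by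
  have hd := isDer_fox ρ
  let H : Subgroup (FreeGroup X) :=
    { carrier := {w | fs (fox ρ w) = 0 ∧ UT lev (levK X lev) 1 (sn (fox ρ w))}
      one_mem' := by
        show fs (fox ρ 1) = 0 ∧ UT lev (levK X lev) 1 (sn (fox ρ 1))
        rw [hd.one]; exact ⟨rfl, UT.zero⟩
      mul_mem' := by
        rintro a b ⟨ha, ha'⟩ ⟨hb, hb'⟩
        show fs (fox ρ (a * b)) = 0 ∧ UT lev (levK X lev) 1 (sn (fox ρ (a * b)))
        rw [hd, fs_add, fs_mul, sn_add, sn_mul, ha, hb, Matrix.mul_zero, Matrix.mul_zero, add_zero,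
          add_zero]
        have := (h.hA a).mul hb'
        rw [zero_add] at this
        exact ⟨rfl, ha'.add this⟩
      inv_mem' := by
        rintro a ⟨ha, ha'⟩
        show fs (fox ρ a⁻¹) = 0 ∧ UT lev (levK X lev) 1 (sn (fox ρ a⁻¹))
        rw [hd.inv, fs_neg, fs_mul, sn_neg, sn_mul, ha, Matrix.mul_zero, Matrix.mul_zero, add_zero,
          neg_zero]
        have := (h.hA a⁻¹).mul ha'
        rw [zero_add] at this
        exact ⟨rfl, this.neg⟩ }
  have hle : gam (GG (⊤ : Subgroup (FreeGroup X)) (c :: cs)) 1 ≤ H := by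
    rw [gam_one, Subgroup.commutator_le]
    intro a ha b hb
    show fs (fox ρ ⁅a, b⁆) = 0 ∧ UT lev (levK X lev) 1 (sn (fox ρ ⁅a, b⁆))
    rw [hd.commutator, fs_add, fs_mul, fs_mul, fs_sub, fs_sub, fs_one, sn_add, sn_mul, sn_mul,
      fs_sub, fs_sub, sn_sub, sn_sub, fs_one, sn_one]
    have h1 : a * b * a⁻¹ ∈ GG (⊤ : Subgroup (FreeGroup X)) (c :: cs) :=
      mul_mem (mul_mem ha hb) (inv_mem ha)
    have h2 : ⁅a, b⁆ ∈ GG (⊤ : Subgroup (FreeGroup X)) (c :: cs) := by
      rw [commutatorElement_def]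
      exact mul_mem h1 (inv_mem hb)
    rw [(h.hC _ h1).1, (h.hC _ ha).1, (h.hC _ h2).1, sub_self, Matrix.zero_mul, Matrix.zero_mul,
      Matrix.zero_mul, Matrix.zero_mul, zero_add, zero_sub]
    refine ⟨by simp, ?_⟩
    have e1 : UT lev lev 0 (-sn (ρ (a * b * a⁻¹))) := (h.hC _ h1).2.neg
    have e2 : UT lev lev 0 (sn (ρ a) - sn (ρ ⁅a, b⁆)) := (h.hC _ ha).2.sub (h.hC _ h2).2
    have f1 := e1.mul (fox_ut1 h a ha)
    have f2 := e2.mul (fox_ut1 h b hb)
    rw [zero_add] at f1 f2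
    simpa only [zero_add] using f1.add f2
  exact fun w hw => hle hw

variable [Fintype X]

omit [Fintype X] in
theorem jac_ut {c : ℕ} {cs : List ℕ} {lev : ι → ℕ} {ρ : FreeGroup X →* Matrix ι ι (DualNumber R)}
    (h : Good c cs lev ρ) (α : FreeGroup X →* FreeGroup X) :
    UT (levK X lev) (levK X lev) 0 (fs (jac ρ α)) :=
  fun p q hpq => fox_ut0 h (α (FreeGroup.of p.1)) p.2 q hpq

/-- Two endomorphisms are congruent modulo the subgroup `V`. -/
def CongM (V : Subgroup (FreeGroup X)) (α α' : FreeGroup X →* FreeGroup X) : Prop :=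
  ∀ x, (α (FreeGroup.of x))⁻¹ * α' (FreeGroup.of x) ∈ V

omit [Fintype X] [DecidableEq X] in
theorem CongM.mono {V V' : Subgroup (FreeGroup X)} (h : V ≤ V')
    {α α' : FreeGroup X →* FreeGroup X} (hc : CongM V α α') : CongM V' α α' := fun x => h (hc x)

omit [Fintype X] in
theorem jac_congr {c : ℕ} {cs : List ℕ} {lev : ι → ℕ} {ρ : FreeGroup X →* Matrix ι ι (DualNumber R)}
    (h : Good c cs lev ρ) {α α' : FreeGroup X →* FreeGroup X} (hc : CongM (gam (GG (⊤ : Subgroup (FreeGroup X)) (c :: cs)) 1) α α') :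
    fs (jac ρ α') = fs (jac ρ α) ∧
      UT (levK X lev) (levK X lev) 1 (sn (jac ρ α') - sn (jac ρ α)) := by
  have hd := isDer_fox ρ
  have key : ∀ x, fox ρ (α' (FreeGroup.of x)) = fox ρ (α (FreeGroup.of x)) +
      ρ (α (FreeGroup.of x)) * fox ρ ((α (FreeGroup.of x))⁻¹ * α' (FreeGroup.of x)) := by
    intro x
    rw [← hd, mul_inv_cancel_left]
  constructor
  · ext p q
    show fs (fox ρ (α' (FreeGroup.of p.1))) p.2 q = fs (fox ρ (α (FreeGroup.of p.1))) p.2 q
    rw [key, fs_add, fs_mul, (fox_es h _ (hc p.1)).1, Matrix.mul_zero, add_zero]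
  · intro p q hpq
    have e1 : (sn (jac ρ α') - sn (jac ρ α)) p q =
        (sn (fox ρ (α' (FreeGroup.of p.1))) - sn (fox ρ (α (FreeGroup.of p.1)))) p.2 q := rfl
    rw [e1, key, sn_add, sn_mul, (fox_es h _ (hc p.1)).1, Matrix.mul_zero, add_zero,
      add_sub_cancel_left]
    have := (h.hA (α (FreeGroup.of p.1))).mul (fox_es h _ (hc p.1)).2
    exact this p.2 q (by rw [zero_add]; exact hpq)

theorem jac_left_inv {c : ℕ} {cs : List ℕ} {lev : ι → ℕ} {ρ : FreeGroup X →* Matrix ι ι (DualNumber R)}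
    (h : Good c cs lev ρ) {α γ : FreeGroup X →* FreeGroup X}
    (hc : CongM (gam (GG (⊤ : Subgroup (FreeGroup X)) (c :: cs)) 1) (MonoidHom.id _) (α.comp γ)) :
    fs (jac (ρ.comp α) γ) * fs (jac ρ α) = 1 := by
  rw [← fs_mul, ← jac_comp, (jac_congr h hc).1, jac_id, fs_one]

theorem dl_congr {c : ℕ} {cs : List ℕ} {lev : ι → ℕ} {ρ : FreeGroup X →* Matrix ι ι (DualNumber R)}
    (h : Good c cs lev ρ) {α α' γ : FreeGroup X →* FreeGroup X}
    (hc : CongM (gam (GG (⊤ : Subgroup (FreeGroup X)) (c :: cs)) 1) (MonoidHom.id _) (α.comp γ)) (hcc : CongM (gam (GG (⊤ : Subgroup (FreeGroup X)) (c :: cs)) 1) α α') :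
    dl (jac ρ α') = dl (jac ρ α) := by
  have h1 := jac_left_inv h hc
  obtain ⟨h2, h3⟩ := jac_congr h hcc
  have h4 : fs (jac (ρ.comp α) γ) * fs (jac ρ α') = 1 := by rw [h2]; exact h1
  rw [dl_of_left_inv h1, dl_of_left_inv h4, ← sub_eq_zero, ← Matrix.trace_sub, ← Matrix.mul_sub]
  have h5 := (jac_ut (h.comp α) γ).mul h3
  rw [zero_add] at h5
  exact h5.trace

end Good

end Pool.Agent.Y51.FP
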