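import Pool.Agent.Y51.FP.Base2

/-!
Finitely generated groups of automorphisms of relatively free groups.
-/

set_option autoImplicit false

namespace Pool.Agent.Y51.FP

open Pool.Agent.TH79.FS (fs sn away wild)

theorem main_fg (r : ℕ) (hr : 3 ≤ r) (cs : List ℕ) (hlen : 2 ≤ cs.length)
    (hpos : ∀ c ∈ cs, 1 ≤ c) (V : Subgroup (FreeGroup (Fin r))) [V.Normal]
    (hfi : ∀ f : FreeGroup (Fin r) →* FreeGroup (Fin r), V ≤ V.comap f) (n : ℕ)
    (hn : gam (GG (⊤ : Subgroup (FreeGroup (Fin r))) cs) n ≤ V)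
    (hV : V ≤ gam (GG (⊤ : Subgroup (FreeGroup (Fin r))) cs) 1)
    (H : Subgroup (MulAut (FreeGroup (Fin r) ⧸ V))) (hH : H.FG) :
    ∃ φ : MulAut (FreeGroup (Fin r) ⧸ V), φ ∉ H ∧
      ∀ w : FreeGroup (Fin r), ∃ u ∈ GG (⊤ : Subgroup (FreeGroup (Fin r))) cs,
        φ (QuotientGroup.mk w) = QuotientGroup.mk (w * u) := by
  obtain ⟨c, cs, rfl⟩ : ∃ c l, cs = c :: l := by
    cases cs with
    | nil => simp at hlen
    | cons c l => exact ⟨c, l, rfl⟩
  have hne : cs ≠ [] := by
    rintro rfl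
    simp at hlen
  obtain ⟨P, _, _, ι, _, _, k, _, lev, R0, hgood, a, b, t, y, hy, htr⟩ :=
    dat_all c cs (hpos c (by simp)) hne (fun d hd => hpos d (List.mem_cons_of_mem c hd))
  let x₀ : Fin r := ⟨0, by omega⟩
  let x₁ : Fin r := ⟨1, by omega⟩
  let x₂ : Fin r := ⟨2, by omega⟩
  have h10 : x₁ ≠ x₀ := by intro h; simp [x₁, x₀] at h
  have h20 : x₂ ≠ x₀ := by intro h; simp [x₂, x₀] at h
  have h21 : x₂ ≠ x₁ := by intro h; simp [x₂, x₁] at h
  let j : FreeGroup (Fin 2) →* FreeGroup (Fin r) :=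
    FreeGroup.lift ![FreeGroup.of x₁, FreeGroup.of x₂]
  let θ : FreeGroup (Fin r) →* P :=
    FreeGroup.lift (fun x => if x = x₀ then t else if x = x₁ then a else if x = x₂ then b else 1)
  have hθ0 : θ (FreeGroup.of x₀) = t := by
    simp only [θ, FreeGroup.lift_apply_of, if_pos]
  have hθ1 : θ (FreeGroup.of x₁) = a := by
    simp only [θ, FreeGroup.lift_apply_of, if_neg h10, if_true]
  have hθ2 : θ (FreeGroup.of x₂) = b := by
    simp only [θ, FreeGroup.lift_apply_of, if_neg h20, if_neg h21, if_true]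
  have hθj : θ (j y) = FreeGroup.lift ![a, b] y := by
    have : θ.comp j = FreeGroup.lift ![a, b] := by
      apply FreeGroup.ext_hom
      intro i
      fin_cases i
      · show θ (j (FreeGroup.of 0)) = FreeGroup.lift ![a, b] (FreeGroup.of 0)
        simp only [j, FreeGroup.lift_apply_of]
        exact hθ1
      · show θ (j (FreeGroup.of 1)) = FreeGroup.lift ![a, b] (FreeGroup.of 1)
        simp only [j, FreeGroup.lift_apply_of]
        exact hθ2
    exact DFunLike.congr_fun this y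
  have hj0 : j y ∈ away x₀ := by
    have h : j.range ≤ away x₀ := by
      rw [FreeGroup.range_lift_eq_closure]
      apply Subgroup.closure_mono
      rintro _ ⟨i, rfl⟩
      fin_cases i
      · exact ⟨x₁, h10, rfl⟩
      · exact ⟨x₂, h20, rfl⟩
    exact h ⟨y, rfl⟩
  refine not_mem_fg_of_trace hfi hn hV hgood θ x₀ (mem_GG_of_hom j hy) hj0 (fun N => ?_) H hH
  refine ⟨N * orderOf t + 1, ?_, ?_⟩
  · have h1 : 0 < orderOf t := orderOf_pos t
    nlinarith
  · have h2 : fs (R0 t) ^ (N * orderOf t + 1) = fs (R0 t) := by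
      rw [← Pool.Agent.TH79.FS.fs_pow, ← map_pow, pow_succ, mul_comm N, pow_mul, pow_orderOf_eq_one,
        one_pow, one_mul]
    rw [hθj, hθ0, h2]
    exact htr

end Pool.Agent.Y51.FP
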