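import Pool.Agent.Y51.FP.Aut

/-!
Wreath products with cyclic groups: appending a class to the list.
-/

set_option autoImplicit false
set_option linter.unusedSectionVars false
set_option linter.unusedVariables false

namespace Pool.Agent.Y51.FP

open Matrix Filter
open scoped commutatorElement
open Pool.Agent.TH79.FS (fs sn fs_apply sn_apply fs_mul sn_mul fs_one sn_one UT)

/-- The wreath product of `P` with `ZMod q`. -/
@[ext] structure Wr (q : ℕ) (P : Type) where
  f : ZMod q → P
  j : ZMod q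

namespace Wr

variable {q : ℕ} {P : Type} [Group P]

instance : Mul (Wr q P) := ⟨fun a b => ⟨fun p => a.f p * b.f (p - a.j), a.j + b.j⟩⟩
instance : One (Wr q P) := ⟨⟨1, 0⟩⟩
instance : Inv (Wr q P) := ⟨fun a => ⟨fun p => (a.f (p + a.j))⁻¹, -a.j⟩⟩

theorem mul_f (a b : Wr q P) (p : ZMod q) : (a * b).f p = a.f p * b.f (p - a.j) := rfl
theorem mul_j (a b : Wr q P) : (a * b).j = a.j + b.j := rfl
theorem one_f (p : ZMod q) : (1 : Wr q P).f p = 1 := rfl
theorem one_j : (1 : Wr q P).j = 0 := rfl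
theorem inv_f (a : Wr q P) (p : ZMod q) : (a⁻¹).f p = (a.f (p + a.j))⁻¹ := rfl
theorem inv_j (a : Wr q P) : (a⁻¹).j = -a.j := rfl

instance : Group (Wr q P) :=
  Group.ofLeftAxioms
    (by
      intro a b c
      ext1
      · funext p
        simp only [mul_f, mul_j, mul_assoc, sub_sub]
      · simp only [mul_j, add_assoc])
    (by
      intro a
      ext1
      · funext p
        simp only [mul_f, one_f, one_j, one_mul, sub_zero]
      · simp only [mul_j, one_j, zero_add])
    (by
      intro a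
      ext1
      · funext p
        simp only [mul_f, inv_f, inv_j, one_f, sub_neg_eq_add, inv_mul_cancel]
      · simp only [mul_j, inv_j, one_j, neg_add_cancel])

/-- The base group. -/
def inc : (ZMod q → P) →* Wr q P where
  toFun f := ⟨f, 0⟩
  map_one' := rfl
  map_mul' f g := by
    ext1
    · funext p
      simp [mul_f]
    · simp [mul_j]

theorem inc_f (f : ZMod q → P) (p : ZMod q) : (inc f).f p = f p := rfl
theorem inc_j (f : ZMod q → P) : (inc f).j = 0 := rfl

instance [NeZero q] [Finite P] : Finite (Wr q P) := by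
  have : Function.Injective (fun a : Wr q P => (a.f, a.j)) := by
    intro a b h
    rw [Prod.mk.injEq] at h
    exact Wr.ext h.1 h.2
  exact Finite.of_injective _ this

/-- The elements of the base group with coordinates in the subgroup `S`. -/
def K (q : ℕ) (S : Subgroup P) : Subgroup (Wr q P) where
  carrier := {g | g.j = 0 ∧ ∀ p, g.f p ∈ S}
  one_mem' := ⟨rfl, fun p => one_mem _⟩
  mul_mem' := by
    rintro a b ⟨ha, ha'⟩ ⟨hb, hb'⟩
    exact ⟨by rw [mul_j, ha, hb, add_zero], fun p => mul_mem (ha' p) (hb' _)⟩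
  inv_mem' := by
    rintro a ⟨ha, ha'⟩
    exact ⟨by rw [inv_j, ha, neg_zero], fun p => inv_mem (ha' _)⟩

theorem comm_le_K {S T : Subgroup P} : ⁅K q S, K q T⁆ ≤ K q ⁅S, T⁆ := by
  rw [Subgroup.commutator_le]
  rintro g ⟨g0, g1⟩ h ⟨h0, h1⟩
  refine ⟨?_, fun p => ?_⟩
  · rw [commutatorElement_def, mul_j, mul_j, mul_j, inv_j, inv_j]
    abel
  · have e : ⁅g, h⁆.f p = ⁅g.f p, h.f p⁆ := by
      rw [commutatorElement_def, commutatorElement_def, mul_f, mul_f, mul_f, inv_f, inv_f,
        mul_j, mul_j, inv_j, g0, h0]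
      simp [mul_j, g0, h0]
    rw [e]
    exact Subgroup.commutator_mem_commutator (g1 p) (h1 p)

theorem gam_le_K {A : Subgroup (Wr q P)} {S : Subgroup P} (h : A ≤ K q S) (n : ℕ) :
    gam A n ≤ K q (gam S n) := by
  induction n with
  | zero => exact h
  | succ n ih => exact (Subgroup.commutator_mono ih h).trans comm_le_K

theorem GG_le_K {A : Subgroup (Wr q P)} {S : Subgroup P} (h : A ≤ K q S) (cs : List ℕ) :
    GG A cs ≤ K q (GG S cs) := by
  induction cs with
  | nil => exact h
  | cons c cs ih => exact gam_le_K ih c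

theorem GG_append_le {d : ℕ} (hd : 1 ≤ d) (cs : List ℕ) :
    GG (⊤ : Subgroup (Wr q P)) (cs ++ [d]) ≤ K q (GG ⊤ cs) := by
  rw [GG_append]
  apply GG_le_K
  refine (gam_anti _ hd).trans ?_
  rw [gam_one, Subgroup.commutator_le]
  intro g _ h _
  refine ⟨?_, fun p => Subgroup.mem_top _⟩
  rw [commutatorElement_def, mul_j, mul_j, mul_j, inv_j, inv_j]
  abel

variable [NeZero q] {ι R : Type} [Fintype ι] [DecidableEq ι] [CommRing R]

/-- The induced monomial representation. -/
def RW (R0 : P →* Matrix ι ι R) : Wr q P →* Matrix (ZMod q × ι) (ZMod q × ι) R where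
  toFun g := Matrix.of fun p s => if s.1 = p.1 - g.j then R0 (g.f p.1) p.2 s.2 else 0
  map_one' := by
    ext p s
    obtain ⟨p, i⟩ := p
    obtain ⟨s, l⟩ := s
    simp only [Matrix.of_apply, one_j, one_f, sub_zero, map_one, Matrix.one_apply, Prod.mk.injEq]
    by_cases h : s = p
    · subst h; simp
    · rw [if_neg h, if_neg (fun h' => h h'.1.symm)]
  map_mul' g h := by
    ext p s
    obtain ⟨p, i⟩ := p
    obtain ⟨s, l⟩ := s
    simp only [Matrix.of_apply, mul_j, mul_f, map_mul, Matrix.mul_apply, Fintype.sum_prod_type]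
    rw [Finset.sum_eq_single (p - g.j)]
    · by_cases hq : s = p - (g.j + h.j)
      · rw [if_pos hq]
        refine Finset.sum_congr rfl fun k _ => ?_
        rw [if_pos rfl, if_pos (by rw [hq]; abel)]
      · rw [if_neg hq]
        symm
        refine Finset.sum_eq_zero fun k _ => ?_
        rw [if_neg (fun h' : s = p - g.j - h.j => hq (by rw [h']; abel)), mul_zero]
    · intro s' _ hs
      refine Finset.sum_eq_zero fun k _ => ?_
      rw [if_neg hs, zero_mul]
    · intro h'
      exact (h' (Finset.mem_univ _)).elim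

theorem RW_apply (R0 : P →* Matrix ι ι R) (g : Wr q P) (p s : ZMod q × ι) :
    RW R0 g p s = if s.1 = p.1 - g.j then R0 (g.f p.1) p.2 s.2 else 0 := rfl

end Wr

section Step

variable {q : ℕ} [NeZero q] {P ι R : Type} [Group P] [Fintype ι] [DecidableEq ι] [CommRing R]

theorem fs_RW (R0 : P →* Matrix ι ι (DualNumber R)) (g : Wr q P) (p s : ZMod q × ι) :
    fs (Wr.RW R0 g) p s = if s.1 = p.1 - g.j then fs (R0 (g.f p.1)) p.2 s.2 else 0 := by
  rw [fs_apply, Wr.RW_apply]
  split_ifs
  · rfl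
  · simp

theorem sn_RW (R0 : P →* Matrix ι ι (DualNumber R)) (g : Wr q P) (p s : ZMod q × ι) :
    sn (Wr.RW R0 g) p s = if s.1 = p.1 - g.j then sn (R0 (g.f p.1)) p.2 s.2 else 0 := by
  rw [sn_apply, Wr.RW_apply]
  split_ifs
  · rfl
  · simp

theorem pgood_RW {c d : ℕ} {cs : List ℕ} (hd : 1 ≤ d) {lev : ι → ℕ}
    {R0 : P →* Matrix ι ι (DualNumber R)}
    (h : PGood c cs lev R0) :
    PGood c (cs ++ [d]) (fun p : ZMod q × ι => lev p.2) (Wr.RW R0) where
  pA g := by
    intro p s hpq
    rw [fs_RW]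
    split_ifs
    · exact h.pA _ _ _ hpq
    · rfl
  pB g hg := by
    obtain ⟨h0, h1⟩ := Wr.GG_append_le hd cs hg
    intro p s hpq
    rw [Matrix.sub_apply, fs_RW, h0, sub_zero]
    by_cases hq : s.1 = p.1
    · rw [if_pos hq]
      have h2 := h.pB _ (h1 p.1) p.2 s.2 hpq
      rw [Matrix.sub_apply] at h2
      have h3 : (1 : Matrix (ZMod q × ι) (ZMod q × ι) R) p s = (1 : Matrix ι ι R) p.2 s.2 := by
        rw [Matrix.one_apply, Matrix.one_apply]
        by_cases h4 : p.2 = s.2
        · rw [if_pos h4, if_pos (Prod.ext hq.symm h4)]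
        · rw [if_neg h4, if_neg (fun h5 => h4 (by rw [h5]))]
      rw [h3, h2]
    · rw [if_neg hq, Matrix.one_apply, if_neg (fun h5 => hq (by rw [h5])), sub_zero]
  pC g hg := by
    obtain ⟨h0, h1⟩ := Wr.GG_append_le hd (c :: cs) (by rwa [List.cons_append])
    constructor
    · ext p s
      rw [fs_RW, h0, sub_zero]
      by_cases hq : s.1 = p.1
      · rw [if_pos hq, (h.pC _ (h1 p.1)).1, Matrix.one_apply, Matrix.one_apply]
        by_cases h4 : p.2 = s.2
        · rw [if_pos h4, if_pos (Prod.ext hq.symm h4)]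
        · rw [if_neg h4, if_neg (fun h5 => h4 (by rw [h5]))]
      · rw [if_neg hq, Matrix.one_apply, if_neg (fun h5 => hq (by rw [h5]))]
    · intro p s hpq
      rw [sn_RW]
      split_ifs
      · exact (h.pC _ (h1 p.1)).2 _ _ hpq
      · rfl
  pc := h.pc
  pne := by simp
  ppos := by
    intro x hx
    rcases List.mem_append.1 hx with h1 | h1
    · exact h.ppos x h1
    · rw [List.mem_singleton] at h1
      rw [h1]; exact hd

theorem trace_RW (R0 : P →* Matrix ι ι (DualNumber R)) (f g : ZMod q → P) :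
    (sn (Wr.RW R0 (Wr.inc f)) * fs (Wr.RW R0 (Wr.inc g))).trace =
      ∑ p, (sn (R0 (f p)) * fs (R0 (g p))).trace := by
  rw [Matrix.trace, Fintype.sum_prod_type]
  refine Finset.sum_congr rfl fun p _ => ?_
  rw [Matrix.trace]
  refine Finset.sum_congr rfl fun i _ => ?_
  rw [Matrix.diag_apply, Matrix.diag_apply, Matrix.mul_apply, Matrix.mul_apply,
    Fintype.sum_prod_type, Finset.sum_eq_single p]
  · refine Finset.sum_congr rfl fun k _ => ?_
    rw [sn_RW, fs_RW]
    simp [Wr.inc_j, Wr.inc_f]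
  · intro s _ hs
    refine Finset.sum_eq_zero fun k _ => ?_
    rw [sn_RW, Wr.inc_j, sub_zero, if_neg hs, zero_mul]
  · intro h
    exact (h (Finset.mem_univ _)).elim

/-- The logarithmic determinant as a homomorphism. -/
def tau (R0 : P →* Matrix ι ι (DualNumber R)) : P →* Multiplicative R where
  toFun g := Multiplicative.ofAdd (fs (R0 g⁻¹) * sn (R0 g)).trace
  map_one' := by
    rw [map_one, sn_one, Matrix.mul_zero, Matrix.trace_zero]
    rfl
  map_mul' g h := by
    rw [← ofAdd_add]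
    congr 1
    have hg : fs (R0 g⁻¹) * fs (R0 g) = 1 := by
      rw [← fs_mul, ← map_mul, inv_mul_cancel, map_one, fs_one]
    have hh : fs (R0 h) * fs (R0 h⁻¹) = 1 := by
      rw [← fs_mul, ← map_mul, mul_inv_cancel, map_one, fs_one]
    rw [_root_.mul_inv_rev, map_mul, map_mul, fs_mul, sn_mul, Matrix.mul_add, Matrix.trace_add]
    have e1 : fs (R0 h⁻¹) * fs (R0 g⁻¹) * (fs (R0 g) * sn (R0 h)) = fs (R0 h⁻¹) * sn (R0 h) := by
      rw [Matrix.mul_assoc, ← Matrix.mul_assoc (fs (R0 g⁻¹)), hg, Matrix.one_mul]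
    have e2 : (fs (R0 h⁻¹) * fs (R0 g⁻¹) * (sn (R0 g) * fs (R0 h))).trace =
        (fs (R0 g⁻¹) * sn (R0 g)).trace := by
      rw [Matrix.mul_assoc, Matrix.trace_mul_comm, ← Matrix.mul_assoc, Matrix.mul_assoc, hh,
        Matrix.mul_one]
    rw [e1, e2, add_comm]

theorem trace_sn_eq_zero {c : ℕ} {cs : List ℕ} {lev : ι → ℕ}
    {R0 : P →* Matrix ι ι (DualNumber R)}
    (h : PGood c cs lev R0) {g : P} (hg : g ∈ GG (⊤ : Subgroup P) (c :: cs)) :
    (sn (R0 g)).trace = 0 := by
  have h1 : g ∈ commutator P := GG_le_commutator h.pne h.ppos (gam_le _ c hg)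
  have h2 : tau R0 g = 1 := Abelianization.commutator_subset_ker (tau R0) h1
  have h3 : (fs (R0 g⁻¹) * sn (R0 g)).trace = 0 := h2
  rwa [(h.pC _ (inv_mem hg)).1, Matrix.one_mul] at h3

/-- Iterated commutators with the second generator. -/
def com : ℕ → FreeGroup (Fin 2)
  | 0 => FreeGroup.of 0
  | n + 1 => ⁅com n, FreeGroup.of 1⁆

theorem com_mem (n : ℕ) : com n ∈ gam (⊤ : Subgroup (FreeGroup (Fin 2))) n := by
  induction n with
  | zero => exact Subgroup.mem_top _
  | succ n ih => exact Subgroup.commutator_mem_commutator ih (Subgroup.mem_top _)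

/-- The substitution. -/
def sig (d : ℕ) : FreeGroup (Fin 2) →* FreeGroup (Fin 2) :=
  FreeGroup.lift ![com d, (FreeGroup.of 1 ^ (d + 1))⁻¹ * com d * FreeGroup.of 1 ^ (d + 1)]

theorem sig_mem (d : ℕ) (g : FreeGroup (Fin 2)) :
    sig d g ∈ gam (⊤ : Subgroup (FreeGroup (Fin 2))) d := by
  have h : (sig d).range ≤ gam (⊤ : Subgroup (FreeGroup (Fin 2))) d := by
    rw [sig, FreeGroup.range_lift_eq_closure, Subgroup.closure_le]
    rintro _ ⟨i, rfl⟩
    fin_cases i
    · exact com_mem d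
    · have h2 := (gam_normal (⊤ : Subgroup (FreeGroup (Fin 2))) d).conj_mem _ (com_mem d)
        (FreeGroup.of 1 ^ (d + 1))⁻¹
      rw [inv_inv] at h2
      exact h2
  exact h ⟨g, rfl⟩

/-- The difference operator. -/
def Df (f : ZMod q → P) : ZMod q → P := fun p => f p * (f (p - 1))⁻¹

theorem Df_iter (f : ZMod q → P) (n : ℕ) : ∀ p : ZMod q,
    (∀ i : ℕ, 1 ≤ i → i ≤ n → f (p - i) = 1) → (Df^[n] f) p = f p := by
  induction n with
  | zero => intro p _; rfl
  | succ n ih =>
    intro p hp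
    rw [Function.iterate_succ_apply']
    show (Df^[n] f) p * ((Df^[n] f) (p - 1))⁻¹ = f p
    rw [ih p (fun i h1 h2 => hp i h1 (by omega)), ih (p - 1) (fun i h1 h2 => by
      have := hp (i + 1) (by omega) (by omega)
      rw [← this]
      congr 1
      push_cast
      ring)]
    have h1 : f (p - 1) = 1 := by
      have := hp 1 le_rfl (by omega)
      simpa using this
    rw [h1, inv_one, mul_one]

/-- The data: a finite group with a good representation and a word with nonzero value. -/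
def Dat (c : ℕ) (cs : List ℕ) : Prop :=
  ∃ (P : Type) (_ : Group P) (_ : Finite P) (ι : Type) (_ : Fintype ι) (_ : DecidableEq ι)
    (k : Type) (_ : CommRing k) (lev : ι → ℕ) (R0 : P →* Matrix ι ι (DualNumber k)),
    PGood c cs lev R0 ∧ ∃ (a b t : P) (y : FreeGroup (Fin 2)),
      y ∈ GG (⊤ : Subgroup (FreeGroup (Fin 2))) (c :: cs) ∧
      (sn (R0 (FreeGroup.lift ![a, b] y)) * fs (R0 t)).trace ≠ 0

theorem dat_append {c : ℕ} {cs : List ℕ} {d : ℕ} (hd1 : 1 ≤ d) (hd : Dat c cs) :
    Dat c (cs ++ [d]) := by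
  obtain ⟨P, _, _, ι, _, _, k, _, lev, R0, hgood, a, b, t, y, hy, htr⟩ := hd
  let q : ℕ := 2 * (d + 1)
  have hq0 : NeZero q := ⟨by omega⟩
  let fa : ZMod q → P := fun p => if p = 0 then a else if p = ((d + 1 : ℕ) : ZMod q) then b else 1
  let A : Wr q P := Wr.inc fa
  let B : Wr q P := ⟨1, 1⟩
  let fc : ZMod q → P := fun p => if p = 0 then t else 1
  let L : FreeGroup (Fin 2) →* Wr q P := FreeGroup.lift ![A, B]
  have hL0 : L (FreeGroup.of 0) = A := by simp [L]
  have hL1 : L (FreeGroup.of 1) = B := by simp [L]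
  have hconj : ∀ (f : ZMod q → P), ⁅Wr.inc f, B⁆ = Wr.inc (Df f) := by
    intro f
    rw [commutatorElement_def]
    ext1
    · funext p
      simp [Wr.mul_f, Wr.inv_f, Wr.mul_j, Wr.inv_j, B, Wr.inc_f, Wr.inc_j, Df]
    · simp [Wr.mul_j, Wr.inv_j, B, Wr.inc_j]
  have hcom : ∀ n, L (com n) = Wr.inc (Df^[n] fa) := by
    intro n
    induction n with
    | zero => exact hL0
    | succ n ih =>
      rw [com, map_commutatorElement, ih, hL1, hconj, Function.iterate_succ_apply']
  have hBpow : ∀ n : ℕ, B ^ n = ⟨1, (n : ZMod q)⟩ := by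
    intro n
    induction n with
    | zero =>
      rw [pow_zero]
      ext1
      · rfl
      · simp [Wr.one_j]
    | succ n ih =>
      rw [pow_succ, ih]
      ext1
      · funext p
        simp [Wr.mul_f, B]
      · simp [Wr.mul_j, B]
  have hsh : ∀ (n : ℕ) (f : ZMod q → P), (B ^ n)⁻¹ * Wr.inc f * B ^ n =
      Wr.inc (fun p : ZMod q => f (p + (n : ZMod q))) := by
    intro n f
    rw [hBpow]
    ext1
    · funext p
      simp [Wr.mul_f, Wr.inv_f, Wr.mul_j, Wr.inv_j, Wr.inc_f, Wr.inc_j]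
    · simp [Wr.mul_j, Wr.inv_j, Wr.inc_j]
  let Th : FreeGroup (Fin 2) →* (ZMod q → P) :=
    FreeGroup.lift ![Df^[d] fa, fun p => (Df^[d] fa) (p + ((d + 1 : ℕ) : ZMod q))]
  have hTh : L.comp (sig d) = Wr.inc.comp Th := by
    apply FreeGroup.ext_hom
    intro i
    fin_cases i
    · show L (sig d (FreeGroup.of 0)) = Wr.inc (Th (FreeGroup.of 0))
      simp only [sig, Th, FreeGroup.lift_apply_of]
      exact hcom d
    · show L (sig d (FreeGroup.of 1)) = Wr.inc (Th (FreeGroup.of 1))
      simp only [sig, Th, FreeGroup.lift_apply_of]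
      show L ((FreeGroup.of 1 ^ (d + 1))⁻¹ * com d * FreeGroup.of 1 ^ (d + 1)) =
        Wr.inc (fun p => (Df^[d] fa) (p + ((d + 1 : ℕ) : ZMod q)))
      rw [map_mul, map_mul, map_inv, map_pow, hL1, hcom, hsh]
  have hval : ∀ m : ℕ, m < q → ((m : ZMod q) = 0 ↔ m = 0) := by
    intro m hm
    rw [ZMod.natCast_eq_zero_iff]
    constructor
    · intro h
      exact Nat.eq_zero_of_dvd_of_lt h hm
    · rintro rfl
      exact dvd_zero _
  have hqz : ((2 * (d + 1) : ℕ) : ZMod q) = 0 := by
    rw [ZMod.natCast_eq_zero_iff]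
  have hfa0 : fa 0 = a := by simp [fa]
  have hL' : ((d + 1 : ℕ) : ZMod q) ≠ 0 := by
    intro h
    have := (hval (d + 1) (by omega)).1 h
    omega
  have hfaL : fa ((d + 1 : ℕ) : ZMod q) = b := by
    show (if ((d + 1 : ℕ) : ZMod q) = 0 then a else
      if ((d + 1 : ℕ) : ZMod q) = ((d + 1 : ℕ) : ZMod q) then b else 1) = b
    rw [if_neg hL', if_pos rfl]
  have hfa1 : ∀ m : ℕ, m < q → m ≠ 0 → m ≠ d + 1 → fa (m : ZMod q) = 1 := by
    intro m hm h0 h1
    simp only [fa]
    rw [if_neg (fun h => h0 ((hval m hm).1 h)), if_neg]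
    intro h
    have h2 : ((m : ℕ) : ZMod q) = ((d + 1 : ℕ) : ZMod q) := h
    rw [ZMod.natCast_eq_natCast_iff'] at h2
    rw [Nat.mod_eq_of_lt hm, Nat.mod_eq_of_lt (by omega)] at h2
    exact h1 h2
  have hD0 : (Df^[d] fa) 0 = a := by
    rw [Df_iter fa d 0, hfa0]
    intro i h1 h2
    have e : (0 : ZMod q) - (i : ZMod q) = ((2 * (d + 1) - i : ℕ) : ZMod q) := by
      rw [Nat.cast_sub (by omega), hqz]
    rw [e]
    exact hfa1 _ (by omega) (by omega) (by omega)
  have hDL : (Df^[d] fa) ((d + 1 : ℕ) : ZMod q) = b := by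
    rw [Df_iter fa d, hfaL]
    intro i h1 h2
    have e : ((d + 1 : ℕ) : ZMod q) - (i : ZMod q) = ((d + 1 - i : ℕ) : ZMod q) := by
      rw [Nat.cast_sub (by omega)]
    rw [e]
    exact hfa1 _ (by omega) (by omega) (by omega)
  have hTh0 : ∀ w, Th w 0 = FreeGroup.lift ![a, b] w := by
    intro w
    have : (Pi.evalMonoidHom (fun _ : ZMod q => P) 0).comp Th = FreeGroup.lift ![a, b] := by
      apply FreeGroup.ext_hom
      intro i
      fin_cases i
      · show Th (FreeGroup.of 0) 0 = FreeGroup.lift ![a, b] (FreeGroup.of 0)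
        simp only [Th, FreeGroup.lift_apply_of]
        exact hD0
      · show Th (FreeGroup.of 1) 0 = FreeGroup.lift ![a, b] (FreeGroup.of 1)
        simp only [Th, FreeGroup.lift_apply_of]
        show (Df^[d] fa) (0 + ((d + 1 : ℕ) : ZMod q)) = b
        rw [zero_add]
        exact hDL
    exact DFunLike.congr_fun this w
  have hThp : ∀ p, Th y p ∈ GG (⊤ : Subgroup P) (c :: cs) := fun p =>
    mem_GG_of_hom ((Pi.evalMonoidHom (fun _ : ZMod q => P) p).comp Th) hy
  refine ⟨Wr q P, inferInstance, inferInstance, ZMod q × ι, inferInstance, inferInstance, k,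
    inferInstance, fun p => lev p.2, Wr.RW R0, pgood_RW hd1 hgood, A, B, Wr.inc fc, sig d y,
    ?_, ?_⟩
  · rw [← List.cons_append]
    exact mem_GG_append_of_hom (sig d) (sig_mem d) hy
  · have h1 : FreeGroup.lift ![A, B] (sig d y) = Wr.inc (Th y) := DFunLike.congr_fun hTh y
    rw [h1, trace_RW]
    have h2 : ∀ p : ZMod q, p ≠ 0 →
        (sn (R0 (Th y p)) * fs (R0 (fc p))).trace = 0 := by
      intro p hp
      have h3 : fc p = 1 := by simp only [fc]; rw [if_neg hp]
      rw [h3, map_one, fs_one, Matrix.mul_one]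
      exact trace_sn_eq_zero hgood (hThp p)
    rw [Finset.sum_eq_single 0 (fun p _ hp => h2 p hp) (fun h => (h (Finset.mem_univ _)).elim),
      hTh0]
    have h3 : fc 0 = t := by simp [fc]
    rw [h3]
    exact htr

end Step

end Pool.Agent.Y51.FP
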